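import Mathlib

set_option autoImplicit false

/-!
# Exponentials of power series and Dwork's integrality lemma
-/

namespace Pool.Agent.Lib.MP_de5eaa_nt.Dwork

open Finset PowerSeries

section Field

variable {K : Type} [Field K] [CharZero K]

/-- The operator `X d/dX`. -/
noncomputable def th (f : PowerSeries K) : PowerSeries K := X * derivative K f

omit [CharZero K] in
lemma coeff_th (f : PowerSeries K) (n : ℕ) : coeff n (th f) = n * coeff n f := by
  unfold th
  rcases n with _ | n
  · simp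
  · rw [coeff_succ_X_mul, coeff_derivative]; push_cast; ring

omit [CharZero K] in
lemma th_mul (f g : PowerSeries K) : th (f * g) = th f * g + f * th g := by
  unfold th
  rw [Derivation.leibniz]
  simp only [smul_eq_mul]
  ring

/-- `f = exp (∫ u dX/X)`. -/
def IsExp (u f : PowerSeries K) : Prop := th f = u * f ∧ coeff 0 f = 1

lemma IsExp.uniq {u f g : PowerSeries K} (hu : coeff 0 u = 0) (hf : IsExp u f)
    (hg : IsExp u g) : f = g := by
  ext n
  induction n using Nat.strong_induction_on with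
  | _ n ih =>
    rcases Nat.eq_zero_or_pos n with h | h
    · subst h; rw [hf.2, hg.2]
    · have h1 := congrArg (coeff n) hf.1
      have h2 := congrArg (coeff n) hg.1
      rw [coeff_th, coeff_mul] at h1 h2
      have h3 : ∑ x ∈ antidiagonal n, coeff x.1 u * coeff x.2 f
          = ∑ x ∈ antidiagonal n, coeff x.1 u * coeff x.2 g := by
        refine Finset.sum_congr rfl (fun x hx => ?_)
        rw [HasAntidiagonal.mem_antidiagonal] at hx
        rcases Nat.eq_zero_or_pos x.1 with h0 | h0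
        · rw [h0, hu]; ring
        · rw [ih x.2 (by omega)]
      rw [h3, ← h2] at h1
      exact mul_left_cancel₀ (Nat.cast_ne_zero.mpr (by omega)) h1

omit [CharZero K] in
lemma IsExp.mul {u v f g : PowerSeries K} (hf : IsExp u f) (hg : IsExp v g) :
    IsExp (u + v) (f * g) := by
  refine ⟨?_, ?_⟩
  · rw [th_mul, hf.1, hg.1]; ring
  · rw [coeff_mul]; simp [hf.2, hg.2]

omit [CharZero K] in
lemma isExp_one : IsExp (0 : PowerSeries K) 1 := by
  refine ⟨?_, by simp⟩
  ext n
  rw [coeff_th]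
  rcases n with _ | n
  · simp
  · simp [coeff_one]

omit [CharZero K] in
lemma IsExp.pow {u f : PowerSeries K} (hf : IsExp u f) (p : ℕ) :
    IsExp (p • u) (f ^ p) := by
  induction p with
  | zero => simpa using isExp_one
  | succ p ih =>
    rw [pow_succ, succ_nsmul]
    exact ih.mul hf

omit [CharZero K] in
lemma IsExp.prod {ι : Type} (s : Finset ι) (u f : ι → PowerSeries K)
    (h : ∀ i ∈ s, IsExp (u i) (f i)) : IsExp (∑ i ∈ s, u i) (∏ i ∈ s, f i) := by
  classical
  induction s using Finset.induction_on with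
  | empty => simpa using isExp_one
  | insert i s hi ih =>
    rw [Finset.sum_insert hi, Finset.prod_insert hi]
    exact (h i (Finset.mem_insert_self i s)).mul
      (ih (fun j hj => h j (Finset.mem_insert_of_mem hj)))

omit [CharZero K] in
lemma IsExp.expand {u f : PowerSeries K} (p : ℕ) (hp : p ≠ 0) (hf : IsExp u f) :
    IsExp (p • PowerSeries.expand p hp u) (PowerSeries.expand p hp f) := by
  refine ⟨?_, ?_⟩
  · rw [smul_mul_assoc, ← map_mul, ← hf.1]
    ext n
    rw [coeff_th, map_nsmul, coeff_expand, coeff_expand, coeff_th]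
    split_ifs with h
    · obtain ⟨m, rfl⟩ := h
      rw [Nat.mul_div_cancel_left m (Nat.pos_of_ne_zero hp)]
      push_cast
      rw [nsmul_eq_mul]; ring
    · simp
  · rw [coeff_expand]; simp [hf.2]

omit [CharZero K] in
lemma IsExp.rescale {u f : PowerSeries K} (c : K) (hf : IsExp u f) :
    IsExp (PowerSeries.rescale c u) (PowerSeries.rescale c f) := by
  refine ⟨?_, ?_⟩
  · rw [← map_mul, ← hf.1]
    ext n
    rw [coeff_th, coeff_rescale, coeff_rescale, coeff_th]
    ring
  · rw [coeff_rescale]; simp [hf.2]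

/-- Existence of the exponential. -/
noncomputable def exSeq (u : PowerSeries K) : ℕ → K
  | 0 => 1
  | n + 1 => (∑ i : Fin (n + 1), coeff (n + 1 - i) u * exSeq u i) / (n + 1)

lemma exists_isExp (u : PowerSeries K) (hu : coeff 0 u = 0) :
    ∃ f : PowerSeries K, IsExp u f := by
  refine ⟨PowerSeries.mk (exSeq u), ?_, ?_⟩
  · ext n
    rw [coeff_th, coeff_mk, coeff_mul]
    rcases n with _ | n
    · simp [hu]
    · rw [Finset.Nat.sum_antidiagonal_eq_sum_range_succ_mk]
      rw [← Finset.sum_range_reflect]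
      rw [exSeq]
      have hne : ((n : K) + 1) ≠ 0 := by exact_mod_cast Nat.succ_ne_zero n
      rw [Nat.cast_succ, mul_div_cancel₀ _ hne]
      rw [Finset.sum_range_succ]
      simp only [coeff_mk, Nat.succ_eq_add_one]
      rw [Fin.sum_univ_eq_sum_range (fun i => coeff (n + 1 - i) u * exSeq u i) (n + 1)]
      have h0 : coeff (n + 1 + 1 - 1 - (n + 1)) u = 0 := by
        have : n + 1 + 1 - 1 - (n + 1) = 0 := by omega
        rw [this, hu]
      rw [h0, zero_mul, add_zero]
      refine Finset.sum_congr rfl (fun i hi => ?_)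
      rw [mem_range] at hi
      have e1 : n + 1 + 1 - 1 - i = n + 1 - i := by omega
      have e2 : n + 1 - (n + 1 - i) = i := by omega
      rw [e1, e2]
  · rw [coeff_mk, exSeq]

end Field

section Padic

variable (p : ℕ) [hp : Fact p.Prime]

lemma norm_nat_le (n : ℕ) : ‖(n : ℚ_[p])‖ ≤ 1 := by
  have := Padic.norm_int_le_one (p := p) (n : ℤ)
  simpa using this

/-- Dwork's lemma (one direction). -/
lemma dwork (f g : PowerSeries ℚ_[p]) (hf0 : coeff 0 f = 1) (hg0 : coeff 0 g = 1)
    (hg : ∀ j, 1 ≤ j → ‖coeff j g‖ ≤ (p : ℝ)⁻¹)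
    (h : f ^ p = PowerSeries.expand p hp.out.ne_zero f * g) :
    ∀ n, ‖coeff n f‖ ≤ 1 := by
  intro n
  induction n using Nat.strong_induction_on with
  | _ n ih =>
  rcases Nat.eq_zero_or_pos n with h0 | hn
  · subst h0; rw [hf0]; simp
  have hp2 : 2 ≤ p := hp.out.two_le
  have hppos : (0 : ℝ) < p := by exact_mod_cast hp.out.pos
  have hdiv : ∀ i, i ≤ n → i / p < n := by
    intro i hi
    calc i / p ≤ n / p := Nat.div_le_div_right hi
      _ < n := Nat.div_lt_self hn hp2
  let t : ℕ → ℤ_[p] := fun i => if h : i < n then ⟨coeff i f, ih i h⟩ else 0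
  have ht : ∀ i, i < n → ((t i : ℤ_[p]) : ℚ_[p]) = coeff i f := by
    intro i hi
    have h1 : t i = (⟨coeff i f, ih i hi⟩ : ℤ_[p]) := dif_pos hi
    rw [h1]
  let T : Polynomial ℤ_[p] := ∑ i ∈ range n, Polynomial.monomial i (t i)
  have hT : ∀ i, T.coeff i = if i < n then t i else 0 := by
    intro i
    simp only [T, Polynomial.finsetSum_coeff, Polynomial.coeff_monomial]
    rw [Finset.sum_ite_eq' (range n) i]
    simp only [mem_range]
  -- the congruence for `T`
  have hcong : ‖(T ^ p).coeff n - (Polynomial.expand ℤ_[p] p T).coeff n‖ ≤ (p : ℝ)⁻¹ := by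
    have h1 : PadicInt.toZMod ((T ^ p).coeff n - (Polynomial.expand ℤ_[p] p T).coeff n) = 0 := by
      rw [map_sub, ← Polynomial.coeff_map, ← Polynomial.coeff_map, Polynomial.map_pow,
        Polynomial.map_expand, ZMod.expand_card, sub_self]
    have h2 : (T ^ p).coeff n - (Polynomial.expand ℤ_[p] p T).coeff n
        ∈ IsLocalRing.maximalIdeal ℤ_[p] := by
      rw [← PadicInt.ker_toZMod]; exact h1
    rw [PadicInt.maximalIdeal_eq_span_p, Ideal.mem_span_singleton] at h2
    obtain ⟨w, hw⟩ := h2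
    rw [hw, norm_mul, PadicInt.norm_p]
    have := PadicInt.norm_le_one w
    have hpi : (0 : ℝ) ≤ (p : ℝ)⁻¹ := by positivity
    nlinarith
  let Tq : PowerSeries ℚ_[p] := ((T.map PadicInt.Coe.ringHom : Polynomial ℚ_[p]) : PowerSeries ℚ_[p])
  have hTq : ∀ i, coeff i Tq = ((T.coeff i : ℤ_[p]) : ℚ_[p]) := by
    intro i
    simp only [Tq, Polynomial.coeff_coe, Polynomial.coeff_map]
    rfl
  have hTqp : coeff n (Tq ^ p) = (((T ^ p).coeff n : ℤ_[p]) : ℚ_[p]) := by
    have : Tq ^ p = (((T ^ p).map PadicInt.Coe.ringHom : Polynomial ℚ_[p]) :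
        PowerSeries ℚ_[p]) := by
      simp only [Tq, Polynomial.map_pow, Polynomial.coe_pow]
    rw [this, Polynomial.coeff_coe, Polynomial.coeff_map]
    rfl
  have hy : X ^ n ∣ f - Tq := by
    rw [X_pow_dvd_iff]
    intro i hi
    rw [map_sub, hTq, hT, if_pos hi, ht i hi, sub_self]
  obtain ⟨y, hy⟩ := hy
  have hyn : coeff 0 y = coeff n f := by
    have h1 := congrArg (coeff n) hy
    rw [map_sub, hTq, hT, if_neg (lt_irrefl n)] at h1
    have h2 := coeff_X_pow_mul y n 0
    rw [zero_add] at h2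
    rw [← h2, ← h1]
    simp
  have hf : f = Tq + X ^ n * y := by rw [← hy]; ring
  obtain ⟨k, hk⟩ := Polynomial.powAddExpansion Tq (X ^ n * y) p
  have hlhs : coeff n (f ^ p) = (((T ^ p).coeff n : ℤ_[p]) : ℚ_[p]) + p * coeff n f := by
    conv_lhs => rw [hf, hk, map_add, map_add, hTqp]
    have h1 : coeff n ((p : PowerSeries ℚ_[p]) * Tq ^ (p - 1) * (X ^ n * y))
        = p * coeff n f := by
      have e1 : (p : PowerSeries ℚ_[p]) * Tq ^ (p - 1) * (X ^ n * y)
          = X ^ n * (p • (Tq ^ (p - 1) * y)) := by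
        rw [nsmul_eq_mul]; ring
      rw [e1]
      have h2 := coeff_X_pow_mul (p • (Tq ^ (p - 1) * y)) n 0
      rw [zero_add] at h2
      rw [h2, map_nsmul, nsmul_eq_mul, coeff_zero_eq_constantCoeff_apply, map_mul,
        ← coeff_zero_eq_constantCoeff_apply, ← coeff_zero_eq_constantCoeff_apply, hyn]
      have h3 : coeff 0 (Tq ^ (p - 1)) = 1 := by
        rw [coeff_zero_eq_constantCoeff_apply, map_pow, ← coeff_zero_eq_constantCoeff_apply,
          hTq, hT, if_pos hn, ht 0 hn, hf0, one_pow]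
      rw [h3, one_mul]
    have h2 : coeff n (k * (X ^ n * y) ^ 2) = 0 := by
      have e1 : k * (X ^ n * y) ^ 2 = X ^ (n + 1) * (X ^ (n - 1) * (k * y ^ 2)) := by
        have : X ^ n * X ^ n = (X : PowerSeries ℚ_[p]) ^ (n + 1) * X ^ (n - 1) := by
          rw [← pow_add, ← pow_add]; congr 1; omega
        calc k * (X ^ n * y) ^ 2 = (X ^ n * X ^ n) * (k * y ^ 2) := by ring
          _ = _ := by rw [this]; ring
      rw [e1, coeff_X_pow_mul', if_neg (by omega)]
    rw [h1, h2, add_zero]
  have hrhs : ‖coeff n (PowerSeries.expand p hp.out.ne_zero f * g) -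
      (((Polynomial.expand ℤ_[p] p T).coeff n : ℤ_[p]) : ℚ_[p])‖ ≤ (p : ℝ)⁻¹ := by
    rw [coeff_mul]
    have hmem : (n, 0) ∈ antidiagonal n := by simp
    rw [← Finset.add_sum_erase _ _ hmem]
    have e1 : coeff n (PowerSeries.expand p hp.out.ne_zero f) * coeff 0 g
        = (((Polynomial.expand ℤ_[p] p T).coeff n : ℤ_[p]) : ℚ_[p]) := by
      rw [hg0, mul_one, coeff_expand, Polynomial.coeff_expand hp.out.pos]
      split_ifs with hd
      · rw [hT, if_pos (hdiv n le_rfl), ht _ (hdiv n le_rfl)]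
      · simp
    simp only [e1]
    rw [add_sub_cancel_left]
    apply IsUltrametricDist.norm_sum_le_of_forall_le_of_nonneg (by positivity)
    intro x hx
    rw [Finset.mem_erase, HasAntidiagonal.mem_antidiagonal] at hx
    have hx2 : 1 ≤ x.2 := by
      by_contra hcon
      apply hx.1
      have h3 : x.2 = 0 := by omega
      have h4 : x.1 = n := by omega
      exact Prod.ext h4 h3
    rw [norm_mul, coeff_expand]
    have h5 : ‖(if p ∣ x.1 then coeff (x.1 / p) f else 0)‖ ≤ 1 := by
      split_ifs with hd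
      · exact ih _ (hdiv _ (by omega))
      · simp
    have h6 := hg x.2 hx2
    have h7 : (0 : ℝ) ≤ ‖coeff x.2 g‖ := norm_nonneg _
    calc _ ≤ 1 * ‖coeff x.2 g‖ := mul_le_mul_of_nonneg_right h5 h7
      _ ≤ (p : ℝ)⁻¹ := by rw [one_mul]; exact h6
  have hfin : ‖(p : ℚ_[p]) * coeff n f‖ ≤ (p : ℝ)⁻¹ := by
    have e1 : (p : ℚ_[p]) * coeff n f =
        (coeff n (PowerSeries.expand p hp.out.ne_zero f * g) -
          (((Polynomial.expand ℤ_[p] p T).coeff n : ℤ_[p]) : ℚ_[p])) -
        (((T ^ p).coeff n : ℤ_[p]) - ((Polynomial.expand ℤ_[p] p T).coeff n : ℤ_[p]) : ℚ_[p]) := by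
      rw [← h, hlhs]; ring
    rw [e1]
    rw [sub_eq_add_neg]
    refine (IsUltrametricDist.norm_add_le_max _ _).trans (max_le hrhs ?_)
    rw [norm_neg, ← PadicInt.coe_sub]
    exact hcong
  rw [norm_mul, Padic.norm_p] at hfin
  have hpi : (0 : ℝ) < (p : ℝ)⁻¹ := by positivity
  by_contra hcon
  push Not at hcon
  nlinarith

end Padic

end Pool.Agent.Lib.MP_de5eaa_nt.Dwork
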