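import Pool.Agent.Lib.MP_de5eaa_nt.Rec
import Pool.Agent.Lib.MP_de5eaa_nt.Dwork

set_option autoImplicit false

/-!
# A lower bound for the power of `p` dividing the number of solutions of `σ ^ n = 1`
-/

namespace Pool.Agent.Lib.MP_de5eaa_nt.Bound

open Finset PowerSeries Nat
open Pool.Agent.Lib.MP_de5eaa_nt.Rec Pool.Agent.Lib.MP_de5eaa_nt.Dwork

section Padic

variable (p : ℕ) [hp : Fact p.Prime]

/-- Power series `1 + ...` with all further coefficients divisible by `p`. -/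
def G1 (g : PowerSeries ℚ_[p]) : Prop :=
  coeff 0 g = 1 ∧ ∀ j, 1 ≤ j → ‖coeff j g‖ ≤ (p : ℝ)⁻¹

lemma inv_le_one : (p : ℝ)⁻¹ ≤ 1 := by
  have : (1 : ℝ) ≤ p := by exact_mod_cast hp.out.one_le
  exact inv_le_one_of_one_le₀ this

lemma G1.le_one {g : PowerSeries ℚ_[p]} (hg : G1 p g) (j : ℕ) : ‖coeff j g‖ ≤ 1 := by
  rcases Nat.eq_zero_or_pos j with h | h
  · subst h; rw [hg.1]; simp
  · exact (hg.2 j h).trans (inv_le_one p)

lemma G1.mul {f g : PowerSeries ℚ_[p]} (hf : G1 p f) (hg : G1 p g) : G1 p (f * g) := by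
  refine ⟨?_, ?_⟩
  · rw [coeff_mul]; simp [hf.1, hg.1]
  · intro j hj
    rw [coeff_mul]
    apply IsUltrametricDist.norm_sum_le_of_forall_le_of_nonneg (by positivity)
    intro x hx
    rw [HasAntidiagonal.mem_antidiagonal] at hx
    rw [norm_mul]
    have h1 := hf.le_one p x.1
    have h2 := hg.le_one p x.2
    rcases Nat.eq_zero_or_pos x.1 with h | h
    · have h3 := hg.2 x.2 (by omega)
      calc _ ≤ 1 * ‖coeff x.2 g‖ := mul_le_mul_of_nonneg_right h1 (norm_nonneg _)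
        _ ≤ _ := by rw [one_mul]; exact h3
    · have h3 := hf.2 x.1 h
      calc _ ≤ ‖coeff x.1 f‖ * 1 := mul_le_mul_of_nonneg_left h2 (norm_nonneg _)
        _ ≤ _ := by rw [mul_one]; exact h3

lemma G1.one : G1 p 1 := by
  refine ⟨by simp, ?_⟩
  intro j hj
  rw [coeff_one, if_neg (by omega)]
  simp

lemma G1.prod {ι : Type} (s : Finset ι) (f : ι → PowerSeries ℚ_[p])
    (h : ∀ i ∈ s, G1 p (f i)) : G1 p (∏ i ∈ s, f i) := by
  classical
  induction s using Finset.induction_on with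
  | empty => simpa using G1.one p
  | insert i s hi ih =>
    rw [Finset.prod_insert hi]
    exact (h i (Finset.mem_insert_self i s)).mul p
      (ih (fun j hj => h j (Finset.mem_insert_of_mem hj)))

lemma norm_pow_div_factorial (i : ℕ) (hi : 1 ≤ i) :
    ‖(p : ℚ_[p]) ^ i / (i ! : ℚ_[p])‖ ≤ (p : ℝ)⁻¹ := by
  have h1 := sub_one_mul_padicValNat_factorial_lt_of_ne_zero p (n := i) (by omega)
  have hp2 := hp.out.two_le
  have h2 : padicValNat p (i !) + 1 ≤ i := by
    have : 1 * padicValNat p (i !) ≤ (p - 1) * padicValNat p (i !) :=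
      Nat.mul_le_mul_right _ (by omega)
    omega
  have hne : ((i ! : ℕ) : ℚ_[p]) ≠ 0 := by exact_mod_cast Nat.factorial_ne_zero i
  rw [norm_div, norm_pow, Padic.norm_p, Padic.norm_eq_zpow_neg_valuation hne,
    Padic.valuation_natCast]
  have hppos : (1 : ℝ) < p := by exact_mod_cast hp.out.one_lt
  have hp0 : (p : ℝ) ≠ 0 := by positivity
  rw [div_eq_mul_inv, zpow_neg, inv_inv, inv_pow, ← zpow_natCast, ← zpow_neg, ← zpow_add₀ hp0,
    ← zpow_neg_one]
  apply zpow_le_zpow_right₀ hppos.le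
  omega

/-- `exp (p X^d / d)`. -/
noncomputable def E (d : ℕ) (hd : d ≠ 0) : PowerSeries ℚ_[p] :=
  PowerSeries.expand d hd (PowerSeries.rescale ((p : ℚ_[p]) / d) (PowerSeries.exp ℚ_[p]))

lemma isExp_E (d : ℕ) (hd : d ≠ 0) : IsExp (p • (X : PowerSeries ℚ_[p]) ^ d) (E p d hd) := by
  have h1 : IsExp (X : PowerSeries ℚ_[p]) (PowerSeries.exp ℚ_[p]) := by
    refine ⟨?_, by simp⟩
    unfold th
    rw [derivative_exp]
  have h2 := (h1.rescale ((p : ℚ_[p]) / d)).expand d hd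
  have h3 : d • PowerSeries.expand d hd (PowerSeries.rescale ((p : ℚ_[p]) / d) X)
      = p • (X : PowerSeries ℚ_[p]) ^ d := by
    ext n
    rw [map_nsmul, map_nsmul, coeff_expand, coeff_X_pow]
    have hd0 : (d : ℚ_[p]) ≠ 0 := by exact_mod_cast hd
    by_cases hn : n = d
    · subst hn
      rw [if_pos (dvd_refl _), if_pos rfl, Nat.div_self (Nat.pos_of_ne_zero hd), coeff_rescale]
      simp only [coeff_one_X, pow_one, mul_one, nsmul_eq_mul]
      field_simp
    · rw [if_neg hn]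
      split_ifs with h
      · obtain ⟨m, rfl⟩ := h
        rw [Nat.mul_div_cancel_left m (Nat.pos_of_ne_zero hd), coeff_rescale, coeff_X,
          if_neg (by rintro rfl; exact hn (mul_one d))]
        simp
      · simp
  rw [h3] at h2
  exact h2

lemma G1_E (d : ℕ) (hd : d ≠ 0) (hpd : ¬ p ∣ d) : G1 p (E p d hd) := by
  refine ⟨(isExp_E p d hd).2, ?_⟩
  intro j hj
  unfold E
  rw [coeff_expand]
  split_ifs with h
  · obtain ⟨i, rfl⟩ := h
    have hi : 1 ≤ i := by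
      rcases Nat.eq_zero_or_pos i with h | h
      · subst h; simp at hj
      · exact h
    rw [Nat.mul_div_cancel_left i (Nat.pos_of_ne_zero hd), coeff_rescale, coeff_exp]
    have hnd : ‖(d : ℚ_[p])‖ = 1 := by
      rw [Padic.norm_natCast_eq_one_iff]
      exact (Nat.Prime.coprime_iff_not_dvd hp.out).mpr hpd
    have h1 := norm_pow_div_factorial p i hi
    have e1 : (((p : ℚ_[p]) / d) ^ i * (algebraMap ℚ ℚ_[p]) (1 / (i ! : ℚ)))
        = ((p : ℚ_[p]) ^ i / (i ! : ℚ_[p])) / (d : ℚ_[p]) ^ i := by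
      rw [div_pow]
      simp only [one_div, map_inv₀, map_natCast]
      ring
    rw [e1, norm_div, norm_pow (d : ℚ_[p]), hnd, one_pow, div_one]
    exact h1
  · simp

/-- The divisors of `p ^ i * m` for some `i`. -/
def InD (m e : ℕ) : Prop := e ≠ 0 ∧ ∃ i, e ∣ p ^ i * m

open Classical in
/-- The generating function of `InD`. -/
noncomputable def uD (m : ℕ) : PowerSeries ℚ_[p] :=
  PowerSeries.mk (fun e => if InD p m e then 1 else 0)

/-- The generating function of the divisors. -/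
noncomputable def uN (n : ℕ) : PowerSeries ℚ_[p] := ∑ d ∈ n.divisors, (X : PowerSeries ℚ_[p]) ^ d

lemma coeff_uN (n e : ℕ) : coeff e (uN p n) = if e ∈ n.divisors then 1 else 0 := by
  unfold uN
  rw [map_sum]
  simp only [coeff_X_pow]
  rw [Finset.sum_ite_eq]

lemma coeff_uD_zero (m : ℕ) : coeff 0 (uD p m) = 0 := by
  unfold uD
  rw [coeff_mk, if_neg]
  intro h
  exact h.1 rfl

lemma coeff_uN_zero (n : ℕ) : coeff 0 (uN p n) = 0 := by
  rw [coeff_uN, if_neg]
  simp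

lemma uD_split (m a : ℕ) (hm : 1 ≤ m) (hpm : ¬ p ∣ m) :
    uN p (p ^ a * m) + PowerSeries.expand (p ^ (a + 1)) (pow_ne_zero _ hp.out.ne_zero) (uD p m)
      = uD p m := by
  classical
  have hp0 : 0 < p := hp.out.pos
  ext e
  rw [map_add, coeff_uN, coeff_expand]
  unfold uD
  simp only [coeff_mk]
  by_cases hq : p ^ (a + 1) ∣ e
  · obtain ⟨f, rfl⟩ := hq
    rw [if_pos (Dvd.intro _ rfl), Nat.mul_div_cancel_left f (by positivity)]
    have h1 : ¬ (p ^ (a + 1) * f ∈ (p ^ a * m).divisors) := by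
      intro h
      rw [Nat.mem_divisors] at h
      have h2 : p ^ a * p ∣ p ^ a * m := by
        rw [← pow_succ]; exact (Dvd.intro _ rfl).trans h.1
      exact hpm (Nat.dvd_of_mul_dvd_mul_left (by positivity) h2)
    rw [if_neg h1, zero_add]
    have h3 : InD p m f ↔ InD p m (p ^ (a + 1) * f) := by
      constructor
      · rintro ⟨h, i, hi⟩
        refine ⟨by positivity, i + (a + 1), ?_⟩
        calc p ^ (a + 1) * f ∣ p ^ (a + 1) * (p ^ i * m) := Nat.mul_dvd_mul_left _ hi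
          _ = p ^ (i + (a + 1)) * m := by rw [pow_add]; ring
      · rintro ⟨h, i, hi⟩
        exact ⟨by rintro rfl; simp at h, i, (Dvd.intro_left _ rfl).trans hi⟩
    simp only [h3]
  · rw [if_neg hq, add_zero]
    have h3 : e ∈ (p ^ a * m).divisors ↔ InD p m e := by
      rw [Nat.mem_divisors]
      constructor
      · rintro ⟨h, h'⟩
        refine ⟨by rintro rfl; exact hq (dvd_zero _), a, h⟩
      · rintro ⟨h, i, hi⟩
        refine ⟨?_, by positivity⟩
        obtain ⟨s, t, hpt, rfl⟩ := Nat.exists_eq_pow_mul_and_not_dvd h p hp.out.ne_one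
        have hs : s ≤ a := by
          by_contra hcon
          exact hq ((pow_dvd_pow p (by omega)).trans (Dvd.intro _ rfl))
        have ht : t ∣ m := by
          have h4 : t ∣ p ^ i * m := (Dvd.intro_left _ rfl).trans hi
          have h5 : Nat.Coprime t (p ^ i) :=
            Nat.Coprime.pow_right i (((Nat.Prime.coprime_iff_not_dvd hp.out).mpr hpt).symm)
          exact h5.dvd_of_dvd_mul_left h4
        exact Nat.mul_dvd_mul (pow_dvd_pow p hs) ht
    simp only [h3]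

/-- Integrality of `exp (∑_{e ∈ D} X^e / e)`. -/
lemma F_int (m : ℕ) (hm : 1 ≤ m) (hpm : ¬ p ∣ m) (F : PowerSeries ℚ_[p])
    (hF : IsExp (uD p m) F) : ∀ n, ‖coeff n F‖ ≤ 1 := by
  let Ed : ℕ → PowerSeries ℚ_[p] := fun d => if hd : d ≠ 0 then E p d hd else 1
  have h1 : ∀ d ∈ m.divisors, IsExp (p • (X : PowerSeries ℚ_[p]) ^ d) (Ed d) := by
    intro d hd
    have hd0 : d ≠ 0 := (Nat.pos_of_mem_divisors hd).ne'
    simp only [Ed, dif_pos hd0]
    exact isExp_E p d hd0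
  have h2 : ∀ d ∈ m.divisors, G1 p (Ed d) := by
    intro d hd
    have hd0 : d ≠ 0 := (Nat.pos_of_mem_divisors hd).ne'
    simp only [Ed, dif_pos hd0]
    exact G1_E p d hd0 (fun h => hpm (h.trans (Nat.dvd_of_mem_divisors hd)))
  have h3 := G1.prod p m.divisors Ed h2
  have h4 := IsExp.prod m.divisors _ Ed h1
  have h5 := hF.pow p
  have h6 := (hF.expand p hp.out.ne_zero).mul h4
  have h7 := uD_split p m 0 hm hpm
  have h8 : p • PowerSeries.expand p hp.out.ne_zero (uD p m)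
      + ∑ d ∈ m.divisors, p • (X : PowerSeries ℚ_[p]) ^ d = p • uD p m := by
    rw [← Finset.smul_sum, ← smul_add]
    congr 1
    conv_rhs => rw [← h7]
    rw [add_comm]
    congr 1
    · unfold uN; simp
    · congr 1; simp
  rw [h8] at h6
  have h9 : coeff 0 (p • uD p m) = 0 := by
    rw [map_nsmul, coeff_uD_zero, smul_zero]
  have h10 := IsExp.uniq h9 h5 h6
  exact dwork p F _ hF.2 h3.1 h3.2 h10

/-- Integrality, up to factorials, of `exp (- (1/q) ∑ u_e X^e / e)`. -/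
lemma g_int (u : PowerSeries ℚ_[p]) (hu0 : coeff 0 u = 0) (hu : ∀ n, ‖coeff n u‖ ≤ 1) (q : ℕ)
    (hq : q ≠ 0) (g : PowerSeries ℚ_[p]) (hg : IsExp ((-(q : ℚ_[p])⁻¹) • u) g) :
    ∀ j, ‖(j ! : ℚ_[p]) * (q : ℚ_[p]) ^ j * coeff j g‖ ≤ 1 := by
  intro j
  induction j using Nat.strong_induction_on with
  | _ j ih =>
  rcases j with _ | j
  · rw [hg.2]; simp
  have hq0 : (q : ℚ_[p]) ≠ 0 := by exact_mod_cast hq
  have h1 := congrArg (coeff (j + 1)) hg.1
  rw [coeff_th, coeff_mul] at h1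
  have e1 : ((j + 1)! : ℚ_[p]) * (q : ℚ_[p]) ^ (j + 1) * coeff (j + 1) g
      = ∑ x ∈ antidiagonal (j + 1),
        (j ! : ℚ_[p]) * (q : ℚ_[p]) ^ (j + 1) * (coeff x.1 (-(q : ℚ_[p])⁻¹ • u) * coeff x.2 g) := by
    rw [← Finset.mul_sum, ← h1, Nat.factorial_succ]
    push_cast
    ring
  rw [e1]
  apply IsUltrametricDist.norm_sum_le_of_forall_le_of_nonneg zero_le_one
  intro x hx
  rw [HasAntidiagonal.mem_antidiagonal] at hx
  rcases Nat.eq_zero_or_pos x.1 with h0 | h0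
  · rw [h0]
    simp only [map_smul, hu0]
    simp
  · have h2 := ih x.2 (by omega)
    obtain ⟨c, hc⟩ : x.2 ! ∣ j ! := Nat.factorial_dvd_factorial (by omega)
    obtain ⟨r, hr⟩ : ∃ r, j = x.2 + r := ⟨j - x.2, by omega⟩
    have e2 : (j ! : ℚ_[p]) * (q : ℚ_[p]) ^ (j + 1) *
        (coeff x.1 (-(q : ℚ_[p])⁻¹ • u) * coeff x.2 g)
        = -((c : ℚ_[p]) * (q : ℚ_[p]) ^ r * coeff x.1 u *
          ((x.2 ! : ℚ_[p]) * (q : ℚ_[p]) ^ x.2 * coeff x.2 g)) := by
      rw [hc]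
      have : (q : ℚ_[p]) ^ (j + 1) = (q : ℚ_[p]) ^ x.2 * (q : ℚ_[p]) ^ r * q := by
        rw [hr, pow_succ, pow_add]
      rw [this]
      simp only [map_smul, smul_eq_mul]
      push_cast
      field_simp
    rw [e2, norm_neg, norm_mul, norm_mul, norm_mul, norm_pow]
    have n1 := norm_nat_le p c
    have n2 := norm_nat_le p q
    have n3 := hu x.1
    have n4 : ‖(q : ℚ_[p])‖ ^ r ≤ 1 := pow_le_one₀ (norm_nonneg _) n2
    have n5 : ‖(c : ℚ_[p])‖ * ‖(q : ℚ_[p])‖ ^ r ≤ 1 := mul_le_one₀ n1 (by positivity) n4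
    have n6 : ‖(c : ℚ_[p])‖ * ‖(q : ℚ_[p])‖ ^ r * ‖coeff x.1 u‖ ≤ 1 :=
      mul_le_one₀ n5 (norm_nonneg _) n3
    exact mul_le_one₀ n6 (norm_nonneg _) h2

/-- The exponential generating function of `nsol n`. -/
lemma isExp_nsol (n : ℕ) (hn : 1 ≤ n) :
    IsExp (uN p n) (PowerSeries.mk (fun k => (nsol n k : ℚ_[p]) / (k ! : ℚ_[p]))) := by
  refine ⟨?_, ?_⟩
  · ext k
    rw [coeff_th, coeff_mk]
    unfold uN
    rw [Finset.sum_mul, map_sum]
    have hk0 : ((k ! : ℕ) : ℚ_[p]) ≠ 0 := by exact_mod_cast Nat.factorial_ne_zero k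
    rcases Nat.eq_zero_or_pos k with h0 | hk
    · subst h0
      simp only [Nat.cast_zero, zero_mul]
      symm
      apply Finset.sum_eq_zero
      intro d hd
      have := Nat.pos_of_mem_divisors hd
      rw [coeff_X_pow_mul', if_neg (by omega)]
    · have h1 := nsol_rec n k hn hk
      have h2 : (k : ℚ_[p]) * (nsol n k : ℚ_[p]) = ∑ d ∈ n.divisors.filter (fun d => d ≤ k),
          ((d ! : ℕ) : ℚ_[p]) * (k.choose d : ℚ_[p]) * (nsol n (k - d) : ℚ_[p]) := by
        exact_mod_cast h1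
      rw [← mul_div_assoc, h2, Finset.sum_div, Finset.sum_filter]
      refine Finset.sum_congr rfl (fun d _ => ?_)
      rw [coeff_X_pow_mul']
      split_ifs with hdk
      · rw [coeff_mk]
        have h3 := Nat.choose_mul_factorial_mul_factorial hdk
        have h4 : (k.choose d : ℚ_[p]) * (d ! : ℕ) * ((k - d)! : ℕ) = (k ! : ℕ) := by
          exact_mod_cast h3
        have hkd : (((k - d)! : ℕ) : ℚ_[p]) ≠ 0 := by
          exact_mod_cast Nat.factorial_ne_zero (k - d)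
        rw [div_eq_div_iff hk0 hkd, ← h4]
        ring
      · rfl
  · rw [coeff_mk, nsol_zero]; simp

/-- The main divisibility. -/
theorem pow_dvd_nsol (a m N k : ℕ) (hm : 1 ≤ m) (hpm : ¬ p ∣ m)
    (hk : ∀ j, p ^ (a + 1) * j ≤ k → p ^ N * (j ! * (p ^ (a + 1)) ^ j) ∣ k !) :
    p ^ N ∣ nsol (p ^ a * m) k := by
  classical
  have hn : 1 ≤ p ^ a * m := Nat.mul_pos (pow_pos hp.out.pos a) hm
  set q := p ^ (a + 1) with hq
  have hq0 : q ≠ 0 := pow_ne_zero _ hp.out.ne_zero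
  have hq0' : (q : ℚ_[p]) ≠ 0 := by exact_mod_cast hq0
  obtain ⟨F, hF⟩ := exists_isExp (uD p m) (coeff_uD_zero p m)
  have hu0 : coeff 0 ((-(q : ℚ_[p])⁻¹) • uD p m) = 0 := by
    rw [map_smul, coeff_uD_zero, smul_zero]
  obtain ⟨g, hg⟩ := exists_isExp _ hu0
  have hu1 : ∀ n, ‖coeff n (uD p m)‖ ≤ 1 := by
    intro n
    unfold uD
    rw [coeff_mk]
    split_ifs <;> simp
  have hFi := F_int p m hm hpm F hF
  have hgi := g_int p (uD p m) (coeff_uD_zero p m) hu1 q hq0 g hg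
  have h1 := hF.mul (hg.expand q hq0)
  have h2 : uD p m + q • PowerSeries.expand q hq0 (-(q : ℚ_[p])⁻¹ • uD p m)
      = uN p (p ^ a * m) := by
    have h3 := uD_split p m a hm hpm
    rw [map_smul]
    have e1 : q • (-(q : ℚ_[p])⁻¹ • PowerSeries.expand q hq0 (uD p m))
        = -PowerSeries.expand q hq0 (uD p m) := by
      rw [← Nat.cast_smul_eq_nsmul ℚ_[p], smul_smul]
      have : (q : ℚ_[p]) * -(q : ℚ_[p])⁻¹ = -1 := by field_simp
      rw [this, neg_one_smul]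
    rw [e1, ← sub_eq_add_neg, sub_eq_iff_eq_add]
    exact h3.symm
  rw [h2] at h1
  have h4 := IsExp.uniq (coeff_uN_zero p _) (isExp_nsol p _ hn) h1
  have h5 := congrArg (coeff k) h4
  rw [coeff_mk, coeff_mul] at h5
  have hk0 : ((k ! : ℕ) : ℚ_[p]) ≠ 0 := by exact_mod_cast Nat.factorial_ne_zero k
  rw [div_eq_iff hk0, Finset.sum_mul] at h5
  have h6 : ‖(nsol (p ^ a * m) k : ℚ_[p])‖ ≤ (p : ℝ) ^ (-(N : ℤ)) := by
    rw [h5]
    apply IsUltrametricDist.norm_sum_le_of_forall_le_of_nonneg (by positivity)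
    intro x hx
    rw [HasAntidiagonal.mem_antidiagonal] at hx
    rw [coeff_expand]
    split_ifs with hd
    · obtain ⟨j, hj⟩ := hd
      rw [hj, Nat.mul_div_cancel_left j (Nat.pos_of_ne_zero hq0)]
      obtain ⟨c, hc⟩ := hk j (by omega)
      rw [hc]
      have e1 : coeff x.1 F * coeff j g * ((p ^ N * (j ! * q ^ j) * c : ℕ) : ℚ_[p])
          = (p : ℚ_[p]) ^ N * (coeff x.1 F * c *
            ((j ! : ℚ_[p]) * (q : ℚ_[p]) ^ j * coeff j g)) := by
        push_cast; ring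
      rw [e1, norm_mul, norm_pow, Padic.norm_p, inv_pow, ← zpow_natCast, ← zpow_neg]
      have n1 := norm_nat_le p c
      have n2 := hFi x.1
      have n3 := hgi j
      have n4 : ‖coeff x.1 F * c * ((j ! : ℚ_[p]) * (q : ℚ_[p]) ^ j * coeff j g)‖ ≤ 1 := by
        rw [norm_mul, norm_mul (coeff x.1 F)]
        exact mul_le_one₀ (mul_le_one₀ n2 (norm_nonneg _) n1) (norm_nonneg _) n3
      calc _ ≤ (p : ℝ) ^ (-(N : ℤ)) * 1 := mul_le_mul_of_nonneg_left n4 (by positivity)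
        _ = _ := mul_one _
    · simp
  have h7 : ‖(((nsol (p ^ a * m) k : ℕ) : ℤ) : ℚ_[p])‖ ≤ (p : ℝ) ^ (-(N : ℤ)) := by
    simpa using h6
  rw [Padic.norm_int_le_pow_iff_dvd] at h7
  exact_mod_cast h7

end Padic

end Pool.Agent.Lib.MP_de5eaa_nt.Bound
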