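import Pool.Agent.Lib.MP_de5eaa_nt.Bound

set_option autoImplicit false

/-!
# The number of solutions of `s ^ n = 1` in the symmetric group of degree `2n` modulo `n ^ 3`
-/

namespace Pool.Agent.Lib.MP_de5eaa_nt.Cube

open Finset Nat Equiv
open Pool.Agent.Lib.MP_de5eaa_nt.Rec Pool.Agent.Lib.MP_de5eaa_nt.Bound

/-! ### Powers of primes in factorials -/

lemma pow_mul_factorial_dvd (p m : ℕ) (hp : p ≠ 0) : p ^ m * m ! ∣ (p * m)! := by
  have h1 := Nat.uniformBell_mul_eq m hp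
  obtain ⟨r, rfl⟩ : ∃ r, p = r + 1 := ⟨p - 1, by omega⟩
  rw [mul_comm (r + 1) m, ← h1, Nat.factorial_succ, mul_pow]
  exact ⟨Nat.uniformBell m (r + 1) * r ! ^ m, by ring⟩

lemma pow_dvd_of_le {p m N k : ℕ} (hp : p ≠ 0) (hN : N ≤ m) (hk : p * m ≤ k) : p ^ N ∣ k ! :=
  ((pow_dvd_pow p hN).trans ((Dvd.intro _ rfl).trans (pow_mul_factorial_dvd p m hp))).trans
    (Nat.factorial_dvd_factorial hk)

lemma le_two_pow (a : ℕ) (ha : 1 ≤ a) : a ≤ 2 ^ (a - 1) := by
  have := Nat.lt_two_pow_self (n := a - 1)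
  omega

/-- `p^(2a)` divides `(2 p^a)!`. -/
lemma dvd_two (p a k : ℕ) (hp : p.Prime) (ha : 1 ≤ a) (hk : 2 * p ^ a ≤ k) :
    p ^ (2 * a) ∣ k ! := by
  apply pow_dvd_of_le hp.ne_zero (m := 2 * p ^ (a - 1))
  · have h1 := le_two_pow a ha
    have h2 : 2 ^ (a - 1) ≤ p ^ (a - 1) := Nat.pow_le_pow_left hp.two_le _
    omega
  · obtain ⟨b, rfl⟩ : ∃ b, a = b + 1 := ⟨a - 1, by omega⟩
    simp only [Nat.add_sub_cancel]
    calc p * (2 * p ^ b) = 2 * p ^ (b + 1) := by ring
      _ ≤ k := hk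

lemma two_mul_lt (a : ℕ) (ha : 3 ≤ a) : 2 * a ≤ 2 ^ a - 1 := by
  induction a, ha using Nat.le_induction with
  | base => norm_num
  | succ a ha ih => rw [pow_succ]; omega

lemma two_mul_le (a : ℕ) (ha : 4 ≤ a) : 2 * a ≤ 2 ^ (a - 1) := by
  induction a, ha using Nat.le_induction with
  | base => norm_num
  | succ a ha ih =>
    obtain ⟨b, rfl⟩ : ∃ b, a = b + 1 := ⟨a - 1, by omega⟩
    simp only [Nat.add_sub_cancel] at ih ⊢
    rw [pow_succ]; omega

lemma two_mul_le_three (a : ℕ) (ha : 3 ≤ a) : 2 * a ≤ 3 ^ (a - 1) := by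
  induction a, ha using Nat.le_induction with
  | base => norm_num
  | succ a ha ih =>
    obtain ⟨b, rfl⟩ : ∃ b, a = b + 1 := ⟨a - 1, by omega⟩
    simp only [Nat.add_sub_cancel] at ih ⊢
    rw [pow_succ]; omega

/-- `p^(2a)` divides `(p^(a+1) - 1)!` except for `p = 2`, `a = 1`. -/
lemma dvd_pred (p a : ℕ) (hp : p.Prime) (ha : 1 ≤ a) (h : ¬ (p = 2 ∧ a = 1)) :
    p ^ (2 * a) ∣ (p ^ (a + 1) - 1)! := by
  by_cases hp2 : p = 2
  · subst hp2
    by_cases ha2 : a = 2
    · subst ha2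
      decide
    · have ha3 : 3 ≤ a := by omega
      apply pow_dvd_of_le (by norm_num) (two_mul_lt a ha3)
      have h1 : 1 ≤ 2 ^ a := Nat.one_le_two_pow
      rw [pow_succ]; omega
  · have hp3 : 3 ≤ p := by have := hp.two_le; omega
    apply dvd_two p a _ hp ha
    have h1 : 1 ≤ p ^ a := Nat.pos_of_ne_zero (pow_ne_zero _ hp.ne_zero)
    have h2 : 3 * p ^ a ≤ p ^ (a + 1) := by
      rw [pow_succ, mul_comm]; exact Nat.mul_le_mul_left _ hp3
    omega

/-- `p^(2a)` divides `(p^a)!` for `a ≥ 2` except for `p = 2`, `a = 2`. -/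
lemma dvd_self (p a k : ℕ) (hp : p.Prime) (ha : 2 ≤ a) (h : ¬ (p = 2 ∧ a = 2))
    (hk : p ^ a ≤ k) : p ^ (2 * a) ∣ k ! := by
  have hpa : p * p ^ (a - 1) = p ^ a := by
    rw [← pow_succ']; congr 1; omega
  by_cases hp2 : p = 2
  · subst hp2
    by_cases ha3 : a = 3
    · subst ha3
      refine (show 2 ^ (2 * 3) ∣ Nat.factorial 8 by decide).trans (Nat.factorial_dvd_factorial ?_)
      simpa using hk
    · exact pow_dvd_of_le (by norm_num) (two_mul_le a (by omega)) (by rw [hpa]; exact hk)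
  · have hp3 : 3 ≤ p := by have := hp.two_le; omega
    by_cases ha2 : a = 2
    · subst ha2
      have h1 : p ^ (2 * 2) ∣ (p * p)! := by
        have h2 := pow_mul_factorial_dvd p p hp.ne_zero
        have h3 : p ∣ p ! := Nat.dvd_factorial hp.pos le_rfl
        refine dvd_trans ?_ h2
        calc p ^ (2 * 2) ∣ p ^ (p + 1) := pow_dvd_pow p (by omega)
          _ = p ^ p * p := pow_succ _ _
          _ ∣ p ^ p * p ! := Nat.mul_dvd_mul_left _ h3
      exact h1.trans (Nat.factorial_dvd_factorial (by rw [← sq]; exact hk))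
    · apply pow_dvd_of_le hp.ne_zero (m := p ^ (a - 1)) _ (by rw [hpa]; exact hk)
      calc 2 * a ≤ 3 ^ (a - 1) := two_mul_le_three a (by omega)
        _ ≤ p ^ (a - 1) := Nat.pow_le_pow_left hp3 _

/-- The `p`-part of the divisibility. -/
lemma core (p a m k : ℕ) (hp : p.Prime) (ha : 1 ≤ a) (hm : 1 ≤ m) (hpm : ¬ p ∣ m)
    (h0 : p ^ (2 * a) ∣ k !) (h1 : ¬ (p = 2 ∧ a = 1) ∨ 6 ≤ k) :
    p ^ (2 * a) ∣ nsol (p ^ a * m) k := by
  have := Fact.mk hp
  apply pow_dvd_nsol p a m (2 * a) k hm hpm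
  intro j hj
  rcases Nat.eq_zero_or_pos j with hj0 | hj0
  · subst hj0; simpa using h0
  set q := p ^ (a + 1) with hq
  have hq0 : q ≠ 0 := pow_ne_zero _ hp.ne_zero
  have hbell := Nat.uniformBell_mul_eq j hq0
  have hqf : q ! = q * (q - 1)! := (Nat.mul_factorial_pred hq0).symm
  have h2 : (q - 1)! ^ j * (j ! * q ^ j) ∣ k ! := by
    refine dvd_trans ?_ (Nat.factorial_dvd_factorial (show j * q ≤ k by rw [mul_comm]; exact hj))
    rw [← hbell, hqf, mul_pow]
    exact ⟨Nat.uniformBell j q, by ring⟩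
  by_cases h3 : p = 2 ∧ a = 1
  · have hk6 : 6 ≤ k := by tauto
    obtain ⟨rfl, rfl⟩ := h3
    have hq4 : q = 4 := by rw [hq]; norm_num
    rw [hq4] at h2 ⊢
    by_cases hj1 : j = 1
    · subst hj1
      exact (show 2 ^ (2 * 1) * (Nat.factorial 1 * 4 ^ 1) ∣ Nat.factorial 6 by decide).trans
        (Nat.factorial_dvd_factorial hk6)
    · have h4 : 2 ^ (2 * 1) ∣ (4 - 1)! ^ j := by
        refine dvd_trans ?_ (pow_dvd_pow _ (show 2 ≤ j by omega))
        decide
      exact (Nat.mul_dvd_mul_right h4 _).trans h2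
  · have h4 : p ^ (2 * a) ∣ (q - 1)! ^ j := by
      refine (dvd_pred p a hp ha h3).trans ?_
      exact dvd_pow_self _ (by omega)
    exact (Nat.mul_dvd_mul_right h4 _).trans h2

/-- Divisibility by `n^2` from its prime parts. -/
lemma sq_dvd_of_forall (n N : ℕ) (hn : 1 ≤ n)
    (h : ∀ p a m, p.Prime → 1 ≤ a → 1 ≤ m → ¬ p ∣ m → n = p ^ a * m → p ^ (2 * a) ∣ N) :
    n ^ 2 ∣ N := by
  rw [Nat.dvd_iff_prime_pow_dvd_dvd]
  intro p b hp hb
  rcases Nat.eq_zero_or_pos b with h0 | h0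
  · subst h0; simp
  obtain ⟨a, m, hpm, rfl⟩ := Nat.exists_eq_pow_mul_and_not_dvd (n := n) (by omega) p hp.ne_one
  have hm : 1 ≤ m := by
    rcases Nat.eq_zero_or_pos m with h | h
    · subst h; simp at hpm
    · exact h
  have hba : b ≤ 2 * a := by
    have h1 : p ^ b ∣ p ^ (2 * a) * m ^ 2 := by
      have : (p ^ a * m) ^ 2 = p ^ (2 * a) * m ^ 2 := by rw [mul_pow, ← pow_mul, mul_comm a 2]
      rw [← this]; exact hb
    have h2 : Nat.Coprime (p ^ b) (m ^ 2) :=
      Nat.Coprime.pow _ _ ((Nat.Prime.coprime_iff_not_dvd hp).mpr hpm)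
    have h3 := h2.dvd_of_dvd_mul_right h1
    exact (Nat.pow_dvd_pow_iff_le_right hp.one_lt).mp h3
  have ha : 1 ≤ a := by omega
  exact (pow_dvd_pow p hba).trans (h p a m hp ha hm hpm rfl)

/-- For `k < 2p` the solutions of `σ ^ p = 1` are the identity and the `p`-cycles. -/
lemma nsol_prime (p : ℕ) (hp : p.Prime) (k : ℕ) (hk : k < 2 * p) :
    nsol p k = 1 + (p - 1)! * k.choose p := by
  have hp2 := hp.two_le
  induction k using Nat.strong_induction_on with
  | _ k ih =>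
  rcases Nat.eq_zero_or_pos k with h0 | h0
  · subst h0
    rw [nsol_zero, Nat.choose_eq_zero_of_lt hp.pos]; simp
  · obtain ⟨l, rfl⟩ : ∃ l, k = l + 1 := ⟨k - 1, by omega⟩
    have h1 := nsol_rec p (l + 1) hp.one_le h0
    rw [hp.divisors, Finset.sum_filter, Finset.sum_pair hp.one_lt.ne, if_pos (by omega)] at h1
    have h2 := ih l (by omega) (by omega)
    have h3 : nsol p (l + 1) * (l + 1) = (1 + (p - 1)! * (l + 1).choose p) * (l + 1) := by
      rw [mul_comm, h1]
      simp only [Nat.factorial_one, Nat.choose_one_right, one_mul, Nat.add_sub_cancel]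
      rw [h2]
      obtain ⟨r, rfl⟩ : ∃ r, p = r + 1 := ⟨p - 1, by omega⟩
      simp only [Nat.add_sub_cancel]
      have h4 := Nat.add_one_mul_choose_eq l r
      split_ifs with hpk
      · have h5 := ih (l + 1 - (r + 1)) (by omega) (by omega)
        rw [Nat.choose_eq_zero_of_lt (show l + 1 - (r + 1) < r + 1 by omega)] at h5
        rw [h5, Nat.factorial_succ]
        have h6 : (l + 1).choose (r + 1) = l.choose r + l.choose (r + 1) :=
          Nat.choose_succ_succ' l r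
        have h7 : (l + 1) * ((l + 1).choose (r + 1)) =
            (l + 1).choose (r + 1) * (r + 1) + (l + 1) * l.choose (r + 1) := by
          rw [← h4, h6]; ring
        calc (l + 1) * (1 + r ! * l.choose (r + 1))
              + (r + 1) * r ! * (l + 1).choose (r + 1) * (1 + r ! * 0)
            = (l + 1) + r ! * ((l + 1).choose (r + 1) * (r + 1) + (l + 1) * l.choose (r + 1)) := by
              ring
          _ = (l + 1) + r ! * ((l + 1) * ((l + 1).choose (r + 1))) := by rw [← h7]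
          _ = (1 + r ! * (l + 1).choose (r + 1)) * (l + 1) := by ring
      · rw [Nat.choose_eq_zero_of_lt (show l + 1 < r + 1 by omega),
          Nat.choose_eq_zero_of_lt (show l < r + 1 by omega)]
        ring
    exact Nat.eq_of_mul_eq_mul_right h0 h3


/-! ### Wolstenholme's theorem -/

lemma choose_pred (p : ℕ) (hp : p.Prime) (j : ℕ) (hj : j < p) :
    ((p - 1).choose j : ZMod p) = (-1) ^ j := by
  have := Fact.mk hp
  induction j with
  | zero => simp
  | succ j ih =>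
    have h1 := ih (by omega)
    have h2 : (p - 1).choose j + (p - 1).choose (j + 1) = p.choose (j + 1) := by
      obtain ⟨r, rfl⟩ : ∃ r, p = r + 1 := ⟨p - 1, by have := hp.two_le; omega⟩
      rw [Nat.add_sub_cancel, Nat.choose_succ_succ']
    have h3 : (p.choose (j + 1) : ZMod p) = 0 := by
      rw [ZMod.natCast_eq_zero_iff]
      exact hp.dvd_choose_self (by omega) hj
    have h4 := congrArg (fun x : ℕ => (x : ZMod p)) h2
    simp only [Nat.cast_add, h3, h1] at h4
    rw [pow_succ]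
    linear_combination h4

lemma sum_sq (p : ℕ) (hp : p.Prime) (hp5 : 5 ≤ p) :
    p ∣ ∑ k ∈ Ico 1 p, (p.choose k / p) ^ 2 := by
  have := Fact.mk hp
  rw [← ZMod.natCast_eq_zero_iff]
  push_cast
  have h1 : ∀ k ∈ Ico 1 p, ((p.choose k / p : ℕ) : ZMod p) ^ 2 = (k : ZMod p) ^ (p - 3) := by
    intro k hk
    rw [mem_Ico] at hk
    obtain ⟨c, hc⟩ := hp.dvd_choose_self (show k ≠ 0 by omega) hk.2
    rw [hc, Nat.mul_div_cancel_left c hp.pos]
    have h2 : k * c = (p - 1).choose (k - 1) := by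
      have h3 := Nat.add_one_mul_choose_eq (p - 1) (k - 1)
      rw [show p - 1 + 1 = p by omega, show k - 1 + 1 = k by omega, hc] at h3
      have h4 : p * (p - 1).choose (k - 1) = p * (k * c) := by rw [h3]; ring
      exact (Nat.eq_of_mul_eq_mul_left hp.pos h4).symm
    have h5 : (k : ZMod p) * c = (-1) ^ (k - 1) := by
      rw [← choose_pred p hp (k - 1) (by omega), ← h2]; push_cast; ring
    have hk0 : (k : ZMod p) ≠ 0 := by
      intro h
      rw [ZMod.natCast_eq_zero_iff] at h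
      have := Nat.le_of_dvd (by omega) h
      omega
    have h6 : (k : ZMod p) ^ 2 * (c : ZMod p) ^ 2 = 1 := by
      rw [← mul_pow, h5, ← pow_mul, mul_comm, pow_mul]; simp
    have h7 : (k : ZMod p) ^ (p - 1) = 1 := ZMod.pow_card_sub_one_eq_one hk0
    have h8 : (k : ZMod p) ^ 2 * (k : ZMod p) ^ (p - 3) = 1 := by
      rw [← pow_add, show 2 + (p - 3) = p - 1 by omega, h7]
    have h9 : (k : ZMod p) ^ 2 ≠ 0 := pow_ne_zero _ hk0
    exact mul_left_cancel₀ h9 (by rw [h6, h8])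
  rw [Finset.sum_congr rfl h1]
  have h2 : ∑ x : ZMod p, x ^ (p - 3) = 0 := by
    apply FiniteField.sum_pow_lt_card_sub_one
    rw [ZMod.card]; omega
  have h3 : ∑ x : ZMod p, x ^ (p - 3) = ∑ k ∈ range p, (k : ZMod p) ^ (p - 3) := by
    symm
    apply Finset.sum_bij (fun (k : ℕ) _ => (k : ZMod p))
    · intro k _; exact Finset.mem_univ _
    · intro a ha b hb hab
      rw [mem_range] at ha hb
      have := congrArg ZMod.val hab
      rwa [ZMod.val_cast_of_lt ha, ZMod.val_cast_of_lt hb] at this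
    · intro b _
      exact ⟨b.val, mem_range.mpr (ZMod.val_lt b), ZMod.natCast_zmod_val b⟩
    · intro k _; rfl
  rw [h3, Finset.range_eq_Ico, Finset.sum_eq_sum_Ico_succ_bot hp.pos] at h2
  rw [Nat.cast_zero, zero_pow (by omega), zero_add] at h2
  exact h2

/-- Wolstenholme's theorem. -/
lemma wolstenholme (p : ℕ) (hp : p.Prime) (hp5 : 5 ≤ p) :
    ((p : ℤ) ^ 3) ∣ ((2 * p - 1).choose p : ℕ) - 1 := by
  have h1 := Nat.sum_range_choose_sq p
  rw [Finset.sum_range_succ, Nat.choose_self, Finset.range_eq_Ico,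
    Finset.sum_eq_sum_Ico_succ_bot hp.pos, Nat.choose_zero_right] at h1
  obtain ⟨c, hc⟩ := sum_sq p hp hp5
  have h2 : ∑ k ∈ Ico (0 + 1) p, (p.choose k) ^ 2 = p ^ 3 * c := by
    have h3 : ∀ k ∈ Ico (0 + 1) p, (p.choose k) ^ 2 = p ^ 2 * (p.choose k / p) ^ 2 := by
      intro k hk
      rw [mem_Ico] at hk
      rw [← mul_pow, Nat.mul_div_cancel' (hp.dvd_choose_self (by omega) hk.2)]
    rw [Finset.sum_congr rfl h3, ← Finset.mul_sum, hc]
    ring
  rw [h2] at h1
  have h4 : (2 * p).choose p = 2 * (2 * p - 1).choose p := by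
    obtain ⟨r, rfl⟩ : ∃ r, p = r + 1 := ⟨p - 1, by omega⟩
    have h5 : 2 * (r + 1) - 1 = 2 * r + 1 := by omega
    have h6 : 2 * (r + 1) = 2 * r + 1 + 1 := by ring
    rw [h5, h6, Nat.choose_succ_succ']
    have h7 : (2 * r + 1).choose r = (2 * r + 1).choose (r + 1) :=
      Nat.choose_symm_of_eq_add (by omega)
    rw [h7]; ring
  rw [h4] at h1
  have h8 : 2 * ((2 * p - 1).choose p - 1 : ℤ) = (p : ℤ) ^ 3 * c := by
    have : (1 ^ 2 + p ^ 3 * c + 1 ^ 2 : ℤ) = 2 * (2 * p - 1).choose p := by exact_mod_cast h1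
    linarith
  have h9 : IsCoprime ((p : ℤ) ^ 3) 2 := by
    apply IsCoprime.pow_left
    have : IsCoprime ((p : ℕ) : ℤ) ((2 : ℕ) : ℤ) := by
      rw [Nat.isCoprime_iff_coprime, Nat.coprime_primes hp Nat.prime_two]
      omega
    exact_mod_cast this
  exact h9.dvd_of_dvd_mul_left ⟨c, h8⟩

end Pool.Agent.Lib.MP_de5eaa_nt.Cube
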