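import Pool.Agent.Lib.MP_de5eaa_nt.Bound

set_option autoImplicit false

/-!
# Wilson primes and the number of permutations of order dividing `n`
-/

namespace Pool.Agent.Lib.MP_de5eaa_nt.PermCount

open Finset Nat Equiv
open Pool.Agent.Lib.MP_de5eaa_nt.Rec Pool.Agent.Lib.MP_de5eaa_nt.Bound

/-- `p` is a Wilson prime of order `m` (`1 ≤ m ≤ p`):
`(m-1)! (p-m)! ≡ (-1)^m mod p^2`. Order `1` is the case of the Wilson primes. -/
def IsWilson (m p : ℕ) : Prop :=
  p.Prime ∧ 1 ≤ m ∧ m ≤ p ∧ ((p : ℤ) ^ 2 ∣ ((m - 1)! : ℤ) * ((p - m)! : ℤ) - (-1) ^ m)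

/-! ### Powers of primes in factorials -/

lemma pow_mul_factorial_dvd (p m : ℕ) (hp : p ≠ 0) : p ^ m * m ! ∣ (p * m)! := by
  have h1 := Nat.uniformBell_mul_eq m hp
  obtain ⟨r, rfl⟩ : ∃ r, p = r + 1 := ⟨p - 1, by omega⟩
  rw [mul_comm (r + 1) m, ← h1, Nat.factorial_succ, mul_pow]
  exact ⟨Nat.uniformBell m (r + 1) * r ! ^ m, by ring⟩

lemma pow_dvd_of_le {p m N k : ℕ} (hp : p ≠ 0) (hN : N ≤ m) (hk : p * m ≤ k) : p ^ N ∣ k ! :=
  ((pow_dvd_pow p hN).trans ((Dvd.intro _ rfl).trans (pow_mul_factorial_dvd p m hp))).trans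
    (Nat.factorial_dvd_factorial hk)

lemma le_two_pow (a : ℕ) (ha : 1 ≤ a) : a ≤ 2 ^ (a - 1) := by
  have := Nat.lt_two_pow_self (n := a - 1)
  omega

/-- `p^(2a)` divides `(2 p^a)!`. -/
lemma dvd_two (p a k : ℕ) (hp : p.Prime) (ha : 1 ≤ a) (hk : 2 * p ^ a ≤ k) :
    p ^ (2 * a) ∣ k ! := by
  apply pow_dvd_of_le hp.ne_zero (m := 2 * p ^ (a - 1))
  · have h1 := le_two_pow a ha
    have h2 : 2 ^ (a - 1) ≤ p ^ (a - 1) := Nat.pow_le_pow_left hp.two_le _
    omega
  · obtain ⟨b, rfl⟩ : ∃ b, a = b + 1 := ⟨a - 1, by omega⟩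
    simp only [Nat.add_sub_cancel]
    calc p * (2 * p ^ b) = 2 * p ^ (b + 1) := by ring
      _ ≤ k := hk

lemma two_mul_lt (a : ℕ) (ha : 3 ≤ a) : 2 * a ≤ 2 ^ a - 1 := by
  induction a, ha using Nat.le_induction with
  | base => norm_num
  | succ a ha ih => rw [pow_succ]; omega

lemma two_mul_le (a : ℕ) (ha : 4 ≤ a) : 2 * a ≤ 2 ^ (a - 1) := by
  induction a, ha using Nat.le_induction with
  | base => norm_num
  | succ a ha ih =>
    obtain ⟨b, rfl⟩ : ∃ b, a = b + 1 := ⟨a - 1, by omega⟩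
    simp only [Nat.add_sub_cancel] at ih ⊢
    rw [pow_succ]; omega

lemma two_mul_le_three (a : ℕ) (ha : 3 ≤ a) : 2 * a ≤ 3 ^ (a - 1) := by
  induction a, ha using Nat.le_induction with
  | base => norm_num
  | succ a ha ih =>
    obtain ⟨b, rfl⟩ : ∃ b, a = b + 1 := ⟨a - 1, by omega⟩
    simp only [Nat.add_sub_cancel] at ih ⊢
    rw [pow_succ]; omega

/-- `p^(2a)` divides `(p^(a+1) - 1)!` except for `p = 2`, `a = 1`. -/
lemma dvd_pred (p a : ℕ) (hp : p.Prime) (ha : 1 ≤ a) (h : ¬ (p = 2 ∧ a = 1)) :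
    p ^ (2 * a) ∣ (p ^ (a + 1) - 1)! := by
  by_cases hp2 : p = 2
  · subst hp2
    by_cases ha2 : a = 2
    · subst ha2
      decide
    · have ha3 : 3 ≤ a := by omega
      apply pow_dvd_of_le (by norm_num) (two_mul_lt a ha3)
      have h1 : 1 ≤ 2 ^ a := Nat.one_le_two_pow
      rw [pow_succ]; omega
  · have hp3 : 3 ≤ p := by have := hp.two_le; omega
    apply dvd_two p a _ hp ha
    have h1 : 1 ≤ p ^ a := Nat.pos_of_ne_zero (pow_ne_zero _ hp.ne_zero)
    have h2 : 3 * p ^ a ≤ p ^ (a + 1) := by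
      rw [pow_succ, mul_comm]; exact Nat.mul_le_mul_left _ hp3
    omega

/-- `p^(2a)` divides `(p^a)!` for `a ≥ 2` except for `p = 2`, `a = 2`. -/
lemma dvd_self (p a k : ℕ) (hp : p.Prime) (ha : 2 ≤ a) (h : ¬ (p = 2 ∧ a = 2))
    (hk : p ^ a ≤ k) : p ^ (2 * a) ∣ k ! := by
  have hpa : p * p ^ (a - 1) = p ^ a := by
    rw [← pow_succ']; congr 1; omega
  by_cases hp2 : p = 2
  · subst hp2
    by_cases ha3 : a = 3
    · subst ha3
      refine (show 2 ^ (2 * 3) ∣ Nat.factorial 8 by decide).trans (Nat.factorial_dvd_factorial ?_)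
      simpa using hk
    · exact pow_dvd_of_le (by norm_num) (two_mul_le a (by omega)) (by rw [hpa]; exact hk)
  · have hp3 : 3 ≤ p := by have := hp.two_le; omega
    by_cases ha2 : a = 2
    · subst ha2
      have h1 : p ^ (2 * 2) ∣ (p * p)! := by
        have h2 := pow_mul_factorial_dvd p p hp.ne_zero
        have h3 : p ∣ p ! := Nat.dvd_factorial hp.pos le_rfl
        refine dvd_trans ?_ h2
        calc p ^ (2 * 2) ∣ p ^ (p + 1) := pow_dvd_pow p (by omega)
          _ = p ^ p * p := pow_succ _ _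
          _ ∣ p ^ p * p ! := Nat.mul_dvd_mul_left _ h3
      exact h1.trans (Nat.factorial_dvd_factorial (by rw [← sq]; exact hk))
    · apply pow_dvd_of_le hp.ne_zero (m := p ^ (a - 1)) _ (by rw [hpa]; exact hk)
      calc 2 * a ≤ 3 ^ (a - 1) := two_mul_le_three a (by omega)
        _ ≤ p ^ (a - 1) := Nat.pow_le_pow_left hp3 _

/-- The `p`-part of the divisibility. -/
lemma core (p a m k : ℕ) (hp : p.Prime) (ha : 1 ≤ a) (hm : 1 ≤ m) (hpm : ¬ p ∣ m)
    (h0 : p ^ (2 * a) ∣ k !) (h1 : ¬ (p = 2 ∧ a = 1) ∨ 6 ≤ k) :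
    p ^ (2 * a) ∣ nsol (p ^ a * m) k := by
  have := Fact.mk hp
  apply pow_dvd_nsol p a m (2 * a) k hm hpm
  intro j hj
  rcases Nat.eq_zero_or_pos j with hj0 | hj0
  · subst hj0; simpa using h0
  set q := p ^ (a + 1) with hq
  have hq0 : q ≠ 0 := pow_ne_zero _ hp.ne_zero
  have hbell := Nat.uniformBell_mul_eq j hq0
  have hqf : q ! = q * (q - 1)! := (Nat.mul_factorial_pred hq0).symm
  have h2 : (q - 1)! ^ j * (j ! * q ^ j) ∣ k ! := by
    refine dvd_trans ?_ (Nat.factorial_dvd_factorial (show j * q ≤ k by rw [mul_comm]; exact hj))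
    rw [← hbell, hqf, mul_pow]
    exact ⟨Nat.uniformBell j q, by ring⟩
  by_cases h3 : p = 2 ∧ a = 1
  · have hk6 : 6 ≤ k := by tauto
    obtain ⟨rfl, rfl⟩ := h3
    have hq4 : q = 4 := by rw [hq]; norm_num
    rw [hq4] at h2 ⊢
    by_cases hj1 : j = 1
    · subst hj1
      exact (show 2 ^ (2 * 1) * (Nat.factorial 1 * 4 ^ 1) ∣ Nat.factorial 6 by decide).trans
        (Nat.factorial_dvd_factorial hk6)
    · have h4 : 2 ^ (2 * 1) ∣ (4 - 1)! ^ j := by
        refine dvd_trans ?_ (pow_dvd_pow _ (show 2 ≤ j by omega))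
        decide
      exact (Nat.mul_dvd_mul_right h4 _).trans h2
  · have h4 : p ^ (2 * a) ∣ (q - 1)! ^ j := by
      refine (dvd_pred p a hp ha h3).trans ?_
      exact dvd_pow_self _ (by omega)
    exact (Nat.mul_dvd_mul_right h4 _).trans h2

/-- Divisibility by `n^2` from its prime parts. -/
lemma sq_dvd_of_forall (n N : ℕ) (hn : 1 ≤ n)
    (h : ∀ p a m, p.Prime → 1 ≤ a → 1 ≤ m → ¬ p ∣ m → n = p ^ a * m → p ^ (2 * a) ∣ N) :
    n ^ 2 ∣ N := by
  rw [Nat.dvd_iff_prime_pow_dvd_dvd]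
  intro p b hp hb
  rcases Nat.eq_zero_or_pos b with h0 | h0
  · subst h0; simp
  obtain ⟨a, m, hpm, rfl⟩ := Nat.exists_eq_pow_mul_and_not_dvd (n := n) (by omega) p hp.ne_one
  have hm : 1 ≤ m := by
    rcases Nat.eq_zero_or_pos m with h | h
    · subst h; simp at hpm
    · exact h
  have hba : b ≤ 2 * a := by
    have h1 : p ^ b ∣ p ^ (2 * a) * m ^ 2 := by
      have : (p ^ a * m) ^ 2 = p ^ (2 * a) * m ^ 2 := by rw [mul_pow, ← pow_mul, mul_comm a 2]
      rw [← this]; exact hb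
    have h2 : Nat.Coprime (p ^ b) (m ^ 2) :=
      Nat.Coprime.pow _ _ ((Nat.Prime.coprime_iff_not_dvd hp).mpr hpm)
    have h3 := h2.dvd_of_dvd_mul_right h1
    exact (Nat.pow_dvd_pow_iff_le_right hp.one_lt).mp h3
  have ha : 1 ≤ a := by omega
  exact (pow_dvd_pow p hba).trans (h p a m hp ha hm hpm rfl)

/-! ### The prime case -/

/-- For `k < 2p` the solutions of `σ ^ p = 1` are the identity and the `p`-cycles. -/
lemma nsol_prime (p : ℕ) (hp : p.Prime) (k : ℕ) (hk : k < 2 * p) :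
    nsol p k = 1 + (p - 1)! * k.choose p := by
  have hp2 := hp.two_le
  induction k using Nat.strong_induction_on with
  | _ k ih =>
  rcases Nat.eq_zero_or_pos k with h0 | h0
  · subst h0
    rw [nsol_zero, Nat.choose_eq_zero_of_lt hp.pos]; simp
  · obtain ⟨l, rfl⟩ : ∃ l, k = l + 1 := ⟨k - 1, by omega⟩
    have h1 := nsol_rec p (l + 1) hp.one_le h0
    rw [hp.divisors, Finset.sum_filter, Finset.sum_pair hp.one_lt.ne, if_pos (by omega)] at h1
    have h2 := ih l (by omega) (by omega)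
    have h3 : nsol p (l + 1) * (l + 1) = (1 + (p - 1)! * (l + 1).choose p) * (l + 1) := by
      rw [mul_comm, h1]
      simp only [Nat.factorial_one, Nat.choose_one_right, one_mul, Nat.add_sub_cancel]
      rw [h2]
      obtain ⟨r, rfl⟩ : ∃ r, p = r + 1 := ⟨p - 1, by omega⟩
      simp only [Nat.add_sub_cancel]
      have h4 := Nat.add_one_mul_choose_eq l r
      split_ifs with hpk
      · have h5 := ih (l + 1 - (r + 1)) (by omega) (by omega)
        rw [Nat.choose_eq_zero_of_lt (show l + 1 - (r + 1) < r + 1 by omega)] at h5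
        rw [h5, Nat.factorial_succ]
        have h6 : (l + 1).choose (r + 1) = l.choose r + l.choose (r + 1) :=
          Nat.choose_succ_succ' l r
        have h7 : (l + 1) * ((l + 1).choose (r + 1)) =
            (l + 1).choose (r + 1) * (r + 1) + (l + 1) * l.choose (r + 1) := by
          rw [← h4, h6]; ring
        calc (l + 1) * (1 + r ! * l.choose (r + 1))
              + (r + 1) * r ! * (l + 1).choose (r + 1) * (1 + r ! * 0)
            = (l + 1) + r ! * ((l + 1).choose (r + 1) * (r + 1) + (l + 1) * l.choose (r + 1)) := by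
              ring
          _ = (l + 1) + r ! * ((l + 1) * ((l + 1).choose (r + 1))) := by rw [← h7]
          _ = (1 + r ! * (l + 1).choose (r + 1)) * (l + 1) := by ring
      · rw [Nat.choose_eq_zero_of_lt (show l + 1 < r + 1 by omega),
          Nat.choose_eq_zero_of_lt (show l < r + 1 by omega)]
        ring
    exact Nat.eq_of_mul_eq_mul_right h0 h3

/-- `∏_{i ≤ r} (p + i)(i - p) ≡ r!^2 mod p^2`. -/
lemma prod_aux (p : ℤ) (r : ℕ) :
    p ^ 2 ∣ (∏ i ∈ range r, (p + (i + 1))) * (∏ i ∈ range r, (p - (i + 1)))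
      - (-1) ^ r * ((r ! : ℕ) : ℤ) ^ 2 := by
  induction r with
  | zero => simp
  | succ r ih =>
    obtain ⟨c, hc⟩ := ih
    rw [sub_eq_iff_eq_add] at hc
    rw [Finset.prod_range_succ, Finset.prod_range_succ, Nat.factorial_succ]
    have e1 : (∏ i ∈ range r, (p + ((i : ℤ) + 1))) * (p + (r + 1)) *
        ((∏ i ∈ range r, (p - ((i : ℤ) + 1))) * (p - (r + 1)))
        = ((∏ i ∈ range r, (p + ((i : ℤ) + 1))) * (∏ i ∈ range r, (p - ((i : ℤ) + 1))))
          * (p ^ 2 - (r + 1) ^ 2) := by ring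
    rw [e1, hc]
    refine ⟨c * (p ^ 2 - (r + 1) ^ 2) + (-1) ^ r * ((r ! : ℕ) : ℤ) ^ 2, ?_⟩
    push_cast
    ring

lemma fact_prod (p r : ℕ) (hr : r < p) :
    (((p - 1)! : ℕ) : ℤ) = ((p - 1 - r)! : ℕ) * ∏ i ∈ range r, ((p : ℤ) - (i + 1)) := by
  induction r with
  | zero => simp
  | succ r ih =>
    rw [ih (by omega), Finset.prod_range_succ]
    have h1 : p - 1 - r = (p - 1 - (r + 1)) + 1 := by omega
    rw [h1, Nat.factorial_succ]
    have h2 : ((p - 1 - (r + 1) + 1 : ℕ) : ℤ) = (p : ℤ) - (r + 1) := by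
      have : p = (p - 1 - (r + 1) + 1) + (r + 1) := by omega
      zify at this
      push_cast
      linarith
    push_cast at h2 ⊢
    rw [← h2]
    ring

lemma choose_prod (p r : ℕ) :
    ((r ! : ℕ) : ℤ) * ((p + r).choose p : ℕ) = ∏ i ∈ range r, ((p : ℤ) + (i + 1)) := by
  induction r with
  | zero => simp
  | succ r ih =>
    rw [Finset.prod_range_succ, ← ih]
    have h1 : (p + (r + 1)).choose p * (r + 1) = (p + r).choose p * (p + r + 1) := by
      have h2 := Nat.choose_mul_succ_eq (p + r) p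
      have h3 : p + r + 1 - p = r + 1 := by omega
      rw [h3] at h2
      rw [← add_assoc, h2]
    have h4 : (((p + (r + 1)).choose p : ℕ) : ℤ) * (r + 1)
        = ((p + r).choose p : ℕ) * (p + r + 1) := by exact_mod_cast h1
    rw [Nat.factorial_succ]
    push_cast at h4 ⊢
    linear_combination ((r ! : ℕ) : ℤ) * h4

/-- The prime case: `p^2` divides the number of solutions iff `p` is a Wilson prime of the
corresponding order. -/
lemma prime_case (p r : ℕ) (hp : p.Prime) (hr : r < p) :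
    p ^ 2 ∣ nsol p (p + r) ↔ IsWilson (r + 1) p := by
  rw [nsol_prime p hp (p + r) (by omega)]
  have hpp := Nat.prime_iff_prime_int.mp hp
  have e1 := fact_prod p r hr
  have e2 := choose_prod p r
  have e3 := prod_aux p r
  rw [← e2] at e3
  set B : ℤ := ∏ i ∈ range r, ((p : ℤ) - (i + 1)) with hB
  set R : ℤ := ((r ! : ℕ) : ℤ) with hR
  set C : ℤ := (((p + r).choose p : ℕ) : ℤ) with hC
  set Q : ℤ := (((p - 1 - r)! : ℕ) : ℤ) with hQ
  have hs : ((-1 : ℤ) ^ r) * (-1) ^ r = 1 := by rw [← mul_pow]; simp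
  have hRp : IsCoprime ((p : ℤ) ^ 2) R := by
    apply IsCoprime.pow_left
    rw [hR, Nat.isCoprime_iff_coprime, Nat.Prime.coprime_iff_not_dvd hp, hp.dvd_factorial]
    omega
  -- `(p-1)! C ≡ (-1)^r r! (p-1-r)!`
  have e4 : (p : ℤ) ^ 2 ∣ Q * B * C - (-1) ^ r * (R * Q) := by
    have : (p : ℤ) ^ 2 ∣ R * (Q * B * C - (-1) ^ r * (R * Q)) := by
      have h1 : R * (Q * B * C - (-1) ^ r * (R * Q)) = Q * (R * C * B - (-1) ^ r * R ^ 2) := by
        ring
      rw [h1]
      exact Dvd.dvd.mul_left e3 _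
    exact hRp.dvd_of_dvd_mul_left this
  have e5 : p ^ 2 ∣ 1 + (p - 1)! * (p + r).choose p ↔ (p : ℤ) ^ 2 ∣ 1 + Q * B * C := by
    rw [← e1, ← Int.natCast_dvd_natCast]
    push_cast
    rfl
  have e6 : IsWilson (r + 1) p ↔ (p : ℤ) ^ 2 ∣ R * Q - (-1) ^ (r + 1) := by
    unfold IsWilson
    have h1 : p - (r + 1) = p - 1 - r := by omega
    rw [Nat.add_sub_cancel, h1]
    constructor
    · rintro ⟨-, -, -, h⟩; exact h
    · intro h; exact ⟨hp, by omega, by omega, h⟩
  rw [e5, e6]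
  constructor
  · intro h
    have h2 := (dvd_sub h e4).mul_left ((-1) ^ r)
    have h3 : (-1 : ℤ) ^ r * (1 + Q * B * C - (Q * B * C - (-1) ^ r * (R * Q)))
        = R * Q - (-1) ^ (r + 1) := by
      rw [pow_succ]
      linear_combination (R * Q) * hs
    rw [← h3]; exact h2
  · intro h
    have h2 := dvd_add (h.mul_left ((-1) ^ r)) e4
    have h3 : (-1 : ℤ) ^ r * (R * Q - (-1) ^ (r + 1)) + (Q * B * C - (-1) ^ r * (R * Q))
        = 1 + Q * B * C := by
      rw [pow_succ]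
      linear_combination hs
    rw [← h3]; exact h2

/-! ### Small values -/

lemma nsol_two (k : ℕ) (hk : 2 ≤ k) :
    k * nsol 2 k = k * nsol 2 (k - 1) + k * (k - 1) * nsol 2 (k - 2) := by
  rw [nsol_rec 2 k (by norm_num) (by omega), Nat.prime_two.divisors, Finset.sum_filter,
    Finset.sum_pair (by norm_num), if_pos (by omega), if_pos hk]
  have h1 : 2 ! * k.choose 2 = k * (k - 1) := by
    rw [Nat.choose_two_right]
    have := Nat.even_mul_pred_self k
    simp only [Nat.factorial_two]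
    exact Nat.mul_div_cancel' this.two_dvd
  rw [h1]
  simp

lemma nsol_one (n : ℕ) (hn : 1 ≤ n) : nsol n 1 = 1 := by
  have h := nsol_rec n 1 hn le_rfl
  have h1 : n.divisors.filter (fun d => d ≤ 1) = {1} := by
    ext d
    simp only [Finset.mem_filter, Nat.mem_divisors, Finset.mem_singleton]
    constructor
    · rintro ⟨⟨h, h'⟩, h3⟩
      have := Nat.pos_of_dvd_of_pos h (by omega)
      omega
    · rintro rfl; exact ⟨⟨one_dvd _, by omega⟩, le_rfl⟩
  rw [h1] at h
  simp [nsol_zero] at h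
  exact h

lemma nsol_2_2 : nsol 2 2 = 2 := by
  have := nsol_two 2 (by norm_num)
  rw [show 2 - 1 = 1 by norm_num, show 2 - 2 = 0 by norm_num, nsol_zero,
    nsol_one 2 (by norm_num)] at this
  omega

lemma nsol_2_3 : nsol 2 3 = 4 := by
  have := nsol_two 3 (by norm_num)
  rw [show 3 - 1 = 2 by norm_num, show 3 - 2 = 1 by norm_num, nsol_2_2,
    nsol_one 2 (by norm_num)] at this
  omega

lemma nsol_2_4 : nsol 2 4 = 10 := by
  have := nsol_two 4 (by norm_num)
  rw [show 4 - 1 = 3 by norm_num, show 4 - 2 = 2 by norm_num, nsol_2_2, nsol_2_3] at this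
  omega

lemma nsol_2_5 : nsol 2 5 = 26 := by
  have := nsol_two 5 (by norm_num)
  rw [show 5 - 1 = 4 by norm_num, show 5 - 2 = 3 by norm_num, nsol_2_3, nsol_2_4] at this
  omega

lemma nsol_4_lt (k : ℕ) (hk : k < 4) : nsol 4 k = nsol 2 k := by
  induction k using Nat.strong_induction_on with
  | _ k ih =>
  rcases Nat.eq_zero_or_pos k with h0 | h0
  · subst h0; rw [nsol_zero, nsol_zero]
  · have h1 := nsol_rec 4 k (by norm_num) h0
    have h2 := nsol_rec 2 k (by norm_num) h0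
    have h3 : (4 : ℕ).divisors.filter (fun d => d ≤ k) = (2 : ℕ).divisors.filter (fun d => d ≤ k) := by
      interval_cases k <;> decide
    rw [h3] at h1
    have h4 : k * nsol 4 k = k * nsol 2 k := by
      rw [h1, h2]
      refine Finset.sum_congr rfl (fun d hd => ?_)
      have := Nat.pos_of_mem_divisors (Finset.mem_filter.mp hd).1
      rw [ih (k - d) (by omega) (by omega)]
    exact Nat.eq_of_mul_eq_mul_left h0 h4

lemma nsol_4_rec (k : ℕ) (hk : 4 ≤ k) :
    k * nsol 4 k = k * nsol 4 (k - 1) + k * (k - 1) * nsol 4 (k - 2)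
      + 24 * k.choose 4 * nsol 4 (k - 4) := by
  have h3 : (4 : ℕ).divisors.filter (fun d => d ≤ k) = {1, 2, 4} := by
    have : (4 : ℕ).divisors = {1, 2, 4} := by decide
    rw [this]
    ext d
    simp only [Finset.mem_filter, Finset.mem_insert, Finset.mem_singleton]
    omega
  rw [nsol_rec 4 k (by norm_num) (by omega), h3, Finset.sum_insert (by decide),
    Finset.sum_pair (by norm_num)]
  have h1 : 2 ! * k.choose 2 = k * (k - 1) := by
    rw [Nat.choose_two_right]
    have := Nat.even_mul_pred_self k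
    simp only [Nat.factorial_two]
    exact Nat.mul_div_cancel' this.two_dvd
  rw [h1]
  have h2 : (4 : ℕ)! = 24 := by decide
  rw [h2]
  simp
  ring

lemma nsol_4_4 : nsol 4 4 = 16 := by
  have := nsol_4_rec 4 (by norm_num)
  rw [show 4 - 1 = 3 by norm_num, show 4 - 2 = 2 by norm_num, show 4 - 4 = 0 by norm_num,
    nsol_4_lt 3 (by norm_num), nsol_4_lt 2 (by norm_num), nsol_2_2, nsol_2_3, nsol_zero,
    Nat.choose_self] at this
  omega

lemma nsol_4_5 : nsol 4 5 = 56 := by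
  have := nsol_4_rec 5 (by norm_num)
  rw [show 5 - 1 = 4 by norm_num, show 5 - 2 = 3 by norm_num, show 5 - 4 = 1 by norm_num,
    nsol_4_lt 3 (by norm_num), nsol_4_4, nsol_2_3, nsol_one 4 (by norm_num),
    show Nat.choose 5 4 = 5 by decide] at this
  omega

/-! ### The classification -/

/-- Composite `n`, or `k ≥ 2n`. -/
lemma good_case (n k : ℕ) (hn : 2 ≤ n) (hk : n ≤ k) (h : ¬ n.Prime ∨ 2 * n ≤ k)
    (h1 : ¬ (n = 2 ∧ k = 4)) (h2 : ¬ (n = 2 ∧ k = 5)) (h3 : ¬ (n = 4 ∧ k = 5)) :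
    n ^ 2 ∣ nsol n k := by
  by_cases h44 : n = 4 ∧ k = 4
  · obtain ⟨rfl, rfl⟩ := h44
    rw [nsol_4_4]; norm_num
  apply sq_dvd_of_forall n (nsol n k) (by omega)
  intro p a m hp ha hm hpm hn'
  rw [hn']
  have hp2 := hp.two_le
  have hpa : 1 ≤ p ^ a := Nat.pos_of_ne_zero (pow_ne_zero _ hp.ne_zero)
  have hpa2 : p ≤ p ^ a := Nat.le_self_pow (by omega) p
  by_cases hm1 : m = 1
  · subst hm1
    rw [mul_one] at hn'
    by_cases ha1 : a = 1
    · subst ha1
      rw [pow_one] at hn'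
      subst hn'
      have hk2 : 2 * n ≤ k := by tauto
      apply core n 1 1 k hp le_rfl le_rfl hpm
      · exact dvd_two n 1 k hp le_rfl (by simpa using hk2)
      · by_cases h6 : 6 ≤ k
        · exact Or.inr h6
        · left
          rintro ⟨rfl, -⟩
          omega
    · have ha2 : 2 ≤ a := by omega
      apply core p a 1 k hp ha le_rfl hpm
      · by_cases h22 : p = 2 ∧ a = 2
        · obtain ⟨rfl, rfl⟩ := h22
          norm_num at hn'
          subst hn'
          have hk6 : 6 ≤ k := by omega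
          exact (show 2 ^ (2 * 2) ∣ Nat.factorial 6 by decide).trans
            (Nat.factorial_dvd_factorial hk6)
        · exact dvd_self p a k hp ha2 h22 (by rw [← hn']; exact hk)
      · left
        rintro ⟨-, h⟩
        exact ha1 h
  · have hm2 : 2 ≤ m := by omega
    have hnk : 2 * p ^ a ≤ k := by
      calc 2 * p ^ a ≤ m * p ^ a := Nat.mul_le_mul_right _ hm2
        _ = n := by rw [hn', mul_comm]
        _ ≤ k := hk
    apply core p a m k hp ha hm hpm
    · exact dvd_two p a k hp ha hnk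
    · by_cases h21 : p = 2 ∧ a = 1
      · obtain ⟨rfl, rfl⟩ := h21
        right
        have : m ≠ 2 := by rintro rfl; exact hpm (dvd_refl _)
        rw [pow_one] at hn'
        omega
      · exact Or.inl h21

/-- The theorem in terms of `nsol`. -/
lemma main (n k : ℕ) (hn : 2 ≤ n) (hk : n ≤ k) :
    n ^ 2 ∣ nsol n k ↔
      (¬ n.Prime ∨ 2 * n ≤ k ∨ IsWilson (k - n + 1) n) ∧
        ¬ (n = 2 ∧ k = 4) ∧ ¬ (n = 2 ∧ k = 5) ∧ ¬ (n = 4 ∧ k = 5) := by
  by_cases h1 : n = 2 ∧ k = 4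
  · obtain ⟨rfl, rfl⟩ := h1
    rw [nsol_2_4]; norm_num
  by_cases h2 : n = 2 ∧ k = 5
  · obtain ⟨rfl, rfl⟩ := h2
    rw [nsol_2_5]; norm_num
  by_cases h3 : n = 4 ∧ k = 5
  · obtain ⟨rfl, rfl⟩ := h3
    rw [nsol_4_5]; norm_num
  by_cases h : ¬ n.Prime ∨ 2 * n ≤ k
  · constructor
    · intro _
      exact ⟨by tauto, h1, h2, h3⟩
    · intro _
      exact good_case n k hn hk h h1 h2 h3
  · push Not at h
    obtain ⟨hp, hk2⟩ := h
    obtain ⟨r, rfl⟩ : ∃ r, k = n + r := ⟨k - n, by omega⟩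
    have h4 := prime_case n r hp (by omega)
    rw [h4, Nat.add_sub_cancel_left]
    constructor
    · intro h5
      exact ⟨Or.inr (Or.inr h5), h1, h2, h3⟩
    · rintro ⟨h5 | h5 | h5, -⟩
      · exact absurd hp h5
      · omega
      · exact h5

/-- **Wilson primes and permutations of order dividing `n`.** Let `2 ≤ n ≤ k`. Apart from the
three pairs `(2,4)`, `(2,5)`, `(4,5)`, where it does not, `n^2` divides the number of
permutations `σ` of `k` letters with `σ ^ n = 1` if and only if `n` is composite, or `k ≥ 2n`,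
or `n` is a Wilson prime of order `k - n + 1`. -/
theorem result (n k : ℕ) (hn : 2 ≤ n) (hk : n ≤ k) :
    n ^ 2 ∣ Fintype.card {σ : Perm (Fin k) // σ ^ n = 1} ↔
      (¬ n.Prime ∨ 2 * n ≤ k ∨ IsWilson (k - n + 1) n) ∧
        ¬ (n = 2 ∧ k = 4) ∧ ¬ (n = 2 ∧ k = 5) ∧ ¬ (n = 4 ∧ k = 5) := by
  rw [Fintype.card_subtype]
  exact main n k hn hk

end Pool.Agent.Lib.MP_de5eaa_nt.PermCount
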