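import Mathlib

set_option autoImplicit false

/-!
# The recursion for the number of solutions of `σ ^ n = 1` in the symmetric group
-/

namespace Pool.Agent.Lib.MP_de5eaa_nt.Rec

open Finset Equiv Equiv.Perm Nat

/-- The number of `σ` in the symmetric group of degree `k` with `σ ^ n = 1`. -/
def nsol (n k : ℕ) : ℕ := #{σ : Perm (Fin k) | σ ^ n = 1}

/-- The same for any finite type. -/
lemma card_sol (n : ℕ) (α : Type) [Fintype α] [DecidableEq α] :
    #{σ : Perm α | σ ^ n = 1} = nsol n (Fintype.card α) := by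
  unfold nsol
  let e := Fintype.equivFin α
  refine Finset.card_bij' (fun σ _ => e.permCongrHom σ) (fun τ _ => e.permCongrHom.symm τ)
    ?_ ?_ ?_ ?_
  · intro σ hσ
    simp only [Finset.mem_filter, Finset.mem_univ, true_and] at hσ ⊢
    rw [← map_pow, hσ, map_one]
  · intro τ hτ
    simp only [Finset.mem_filter, Finset.mem_univ, true_and] at hτ ⊢
    rw [← map_pow, hτ, map_one]
  · intro σ _; exact e.permCongrHom.symm_apply_apply σ
  · intro τ _; exact e.permCongrHom.apply_symm_apply τ

/-- The permutations with `σ ^ n = 1` fixing every point of a finite set. -/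
lemma card_sol_fixing (n : ℕ) {α : Type} [Fintype α] [DecidableEq α] (S : Finset α) :
    #{σ : Perm α | σ ^ n = 1 ∧ ∀ a ∈ S, σ a = a} = nsol n (Fintype.card α - #S) := by
  have h1 : Fintype.card {a : α // a ∉ S} = Fintype.card α - #S := by
    rw [Fintype.card_subtype_compl]; simp
  rw [← h1, ← card_sol]
  symm
  refine Finset.card_bij (fun τ _ => ofSubtype τ) ?_ ?_ ?_
  · intro τ hτ
    simp only [Finset.mem_filter, Finset.mem_univ, true_and] at hτ ⊢
    refine ⟨by rw [← map_pow, hτ, map_one], fun a ha => ?_⟩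
    exact ofSubtype_apply_of_not_mem τ (by simpa using ha)
  · intro τ _ τ' _ h
    exact ofSubtype_injective h
  · intro σ hσ
    simp only [Finset.mem_filter, Finset.mem_univ, true_and] at hσ
    obtain ⟨hn, hS⟩ := hσ
    have hp : ∀ a, a ∉ S ↔ σ a ∉ S := by
      intro a
      constructor
      · intro ha hσa
        have h2 := hS _ hσa
        exact ha (by rw [σ.injective h2] at hσa; exact hσa)
      · intro hσa ha
        rw [hS a ha] at hσa
        exact hσa ha
    refine ⟨σ.subtypePerm (fun a => (hp a).symm), ?_, ?_⟩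
    · simp only [Finset.mem_filter, Finset.mem_univ, true_and]
      rw [subtypePerm_pow]
      ext x
      simp [hn]
    · apply ofSubtype_subtypePerm
      intro x hx hxS
      exact hx (hS x hxS)

/-- The permutations with `σ ^ n = 1` having a given cycle as a factor. -/
lemma card_sol_cycle (n : ℕ) {α : Type} [Fintype α] [DecidableEq α] (c : Perm α)
    (hc : c.IsCycle) (hcn : c ^ n = 1) :
    #{σ : Perm α | σ ^ n = 1 ∧ c ∈ σ.cycleFactorsFinset}
      = nsol n (Fintype.card α - #c.support) := by
  rw [← card_sol_fixing n c.support]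
  refine Finset.card_bij' (fun σ _ => σ * c⁻¹) (fun τ _ => τ * c) ?_ ?_ ?_ ?_
  · intro σ hσ
    simp only [Finset.mem_filter, Finset.mem_univ, true_and] at hσ ⊢
    obtain ⟨hn, hcs⟩ := hσ
    have hcomm : Commute c σ := self_mem_cycle_factors_commute hcs
    refine ⟨?_, fun a ha => ?_⟩
    · rw [(hcomm.symm.inv_right).mul_pow, hn, inv_pow, hcn]; simp
    · have hd := disjoint_mul_inv_of_mem_cycleFactorsFinset hcs
      rcases hd a with h | h
      · exact h
      · exact absurd h (mem_support.mp ha)
  · intro τ hτ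
    simp only [Finset.mem_filter, Finset.mem_univ, true_and] at hτ ⊢
    obtain ⟨hn, hS⟩ := hτ
    have hd : τ.Disjoint c := by
      intro a
      by_cases ha : a ∈ c.support
      · exact Or.inl (hS a ha)
      · exact Or.inr (notMem_support.mp ha)
    refine ⟨?_, ?_⟩
    · rw [hd.commute.mul_pow, hn, hcn]; simp
    · rw [hd.cycleFactorsFinset_mul_eq_union, Finset.mem_union]
      right
      rw [cycleFactorsFinset_eq_singleton_iff.mpr ⟨hc, rfl⟩]
      simp
  · intro σ _; simp
  · intro τ _; simp

/-- Double counting of pairs `(σ, x)` with `x` moved by `σ`. -/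
lemma sum_support (n k : ℕ) (hn : 1 ≤ n) :
    ∑ σ : Perm (Fin k) with σ ^ n = 1, #σ.support
      = ∑ d ∈ n.divisors.filter (fun d => 2 ≤ d ∧ d ≤ k),
          d ! * k.choose d * nsol n (k - d) := by
  have h1 : ∀ σ : Perm (Fin k), #σ.support
      = ∑ c : Perm (Fin k), if c ∈ σ.cycleFactorsFinset then #c.support else 0 := by
    intro σ
    rw [← sum_cycleType, cycleType_def]
    rw [Finset.sum_ite_mem]; simp
  have h2 : ∑ σ : Perm (Fin k) with σ ^ n = 1, #σ.support
      = ∑ c : Perm (Fin k), #{σ : Perm (Fin k) | σ ^ n = 1 ∧ c ∈ σ.cycleFactorsFinset}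
          * #c.support := by
    rw [Finset.sum_congr rfl (fun σ _ => h1 σ), Finset.sum_comm]
    refine Finset.sum_congr rfl (fun c _ => ?_)
    rw [← Finset.sum_filter, Finset.sum_const, Finset.filter_filter, smul_eq_mul]
  rw [h2]
  set D := n.divisors.filter (fun d => 2 ≤ d ∧ d ≤ k) with hD
  have h3 : ∑ c : Perm (Fin k), #{σ : Perm (Fin k) | σ ^ n = 1 ∧ c ∈ σ.cycleFactorsFinset}
          * #c.support
      = ∑ c ∈ D.biUnion (fun d => ({c | c.cycleType = {d}} : Finset (Perm (Fin k)))),
        #{σ : Perm (Fin k) | σ ^ n = 1 ∧ c ∈ σ.cycleFactorsFinset} * #c.support := by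
    symm
    apply Finset.sum_subset (Finset.subset_univ _)
    intro c _ hc
    rw [Nat.mul_eq_zero]
    left
    rw [Finset.card_eq_zero, Finset.filter_eq_empty_iff]
    rintro σ - ⟨hσn, hcσ⟩
    apply hc
    have hcyc : c.IsCycle := (mem_cycleFactorsFinset_iff.mp hcσ).1
    rw [Finset.mem_biUnion]
    refine ⟨#c.support, ?_, ?_⟩
    · rw [hD, Finset.mem_filter, Nat.mem_divisors]
      refine ⟨⟨?_, by omega⟩, hcyc.two_le_card_support, ?_⟩
      · have h4 : #c.support ∈ σ.cycleType := by
          rw [cycleType_def, Multiset.mem_map]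
          exact ⟨c, hcσ, rfl⟩
        exact (dvd_of_mem_cycleType h4).trans (orderOf_dvd_of_pow_eq_one hσn)
      · simpa using Finset.card_le_univ c.support
    · rw [Finset.mem_filter]
      exact ⟨Finset.mem_univ _, hcyc.cycleType⟩
  rw [h3, Finset.sum_biUnion]
  · refine Finset.sum_congr rfl (fun d hd => ?_)
    rw [hD, Finset.mem_filter, Nat.mem_divisors] at hd
    obtain ⟨⟨hdn, -⟩, hd2, hdk⟩ := hd
    have h5 : ∀ c ∈ ({c | c.cycleType = {d}} : Finset (Perm (Fin k))),
        #{σ : Perm (Fin k) | σ ^ n = 1 ∧ c ∈ σ.cycleFactorsFinset} * #c.support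
          = nsol n (k - d) * d := by
      intro c hc
      rw [Finset.mem_filter] at hc
      have hsup : #c.support = d := by rw [← sum_cycleType, hc.2]; simp
      have hcyc : c.IsCycle := by rw [← card_cycleType_eq_one, hc.2]; simp
      rw [card_sol_cycle n c hcyc, Fintype.card_fin, hsup]
      rw [← orderOf_dvd_iff_pow_eq_one, hcyc.orderOf, hsup]
      exact hdn
    rw [Finset.sum_congr rfl h5, Finset.sum_const, smul_eq_mul,
      card_of_cycleType_singleton hd2 (by simpa using hdk), Fintype.card_fin]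
    obtain ⟨e, rfl⟩ : ∃ e, d = e + 1 := ⟨d - 1, by omega⟩
    rw [Nat.factorial_succ]
    simp only [Nat.add_sub_cancel]
    ring
  · intro d _ d' _ hdd
    rw [Function.onFun, Finset.disjoint_left]
    intro c hc hc'
    rw [Finset.mem_filter] at hc hc'
    apply hdd
    have := hc.2.symm.trans hc'.2
    simpa using this

/-- Double counting of pairs `(σ, x)` with `x` fixed by `σ`. -/
lemma sum_fixed (n k : ℕ) :
    ∑ σ : Perm (Fin k) with σ ^ n = 1, (k - #σ.support) = k * nsol n (k - 1) := by
  have h1 : ∀ σ : Perm (Fin k), k - #σ.support = ∑ x : Fin k, if σ x = x then 1 else 0 := by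
    intro σ
    have h2 : #σ.supportᶜ = k - #σ.support := by
      rw [Finset.card_compl, Fintype.card_fin]
    rw [← h2, ← Finset.card_filter]
    congr 1
    ext x
    simp
  rw [Finset.sum_congr rfl (fun σ _ => h1 σ), Finset.sum_comm]
  have h3 : ∀ x : Fin k, (∑ σ : Perm (Fin k) with σ ^ n = 1, if σ x = x then 1 else 0)
      = nsol n (k - 1) := by
    intro x
    have h4 := card_sol_fixing n ({x} : Finset (Fin k))
    rw [Fintype.card_fin, Finset.card_singleton] at h4
    rw [← h4, ← Finset.card_filter, Finset.filter_filter]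
    congr 1
    ext σ
    simp
  rw [Finset.sum_congr rfl (fun x _ => h3 x)]
  simp

/-- The recursion. -/
theorem nsol_rec (n k : ℕ) (hn : 1 ≤ n) (hk : 1 ≤ k) :
    k * nsol n k = ∑ d ∈ n.divisors.filter (fun d => d ≤ k),
          d ! * k.choose d * nsol n (k - d) := by
  have h1 : k * nsol n k = ∑ σ : Perm (Fin k) with σ ^ n = 1, #σ.support
      + ∑ σ : Perm (Fin k) with σ ^ n = 1, (k - #σ.support) := by
    rw [← Finset.sum_add_distrib]
    have : ∀ σ ∈ ({σ | σ ^ n = 1} : Finset (Perm (Fin k))),
        #σ.support + (k - #σ.support) = k := by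
      intro σ _
      have : #σ.support ≤ k := by simpa using Finset.card_le_univ σ.support
      omega
    rw [Finset.sum_congr rfl this, Finset.sum_const, smul_eq_mul, nsol, mul_comm]
  rw [h1, sum_support n k hn, sum_fixed]
  have h2 : n.divisors.filter (fun d => d ≤ k)
      = insert 1 (n.divisors.filter (fun d => 2 ≤ d ∧ d ≤ k)) := by
    ext d
    simp only [Finset.mem_filter, Nat.mem_divisors, Finset.mem_insert]
    constructor
    · rintro ⟨⟨h, h'⟩, h3⟩
      have := Nat.pos_of_dvd_of_pos h (by omega)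
      by_cases hd : d = 1
      · exact Or.inl hd
      · exact Or.inr ⟨⟨h, h'⟩, by omega, h3⟩
    · rintro (h | h)
      · subst h; exact ⟨⟨one_dvd _, by omega⟩, hk⟩
      · exact ⟨h.1, h.2.2⟩
  rw [h2, Finset.sum_insert (by simp)]
  simp
  ring

lemma nsol_zero (n : ℕ) : nsol n 0 = 1 := by
  unfold nsol
  rw [Finset.card_eq_one]
  refine ⟨1, ?_⟩
  ext σ
  have : σ = 1 := Subsingleton.elim _ _
  simp [this]

end Pool.Agent.Lib.MP_de5eaa_nt.Rec
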